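import Pool.Agent.Helper89.Hole.MDefs

/-!
Basic lemmas: general position, generic points.
-/

namespace KHole

theorem GenPos.subset {S T : Finset Pt} (h : GenPos T) (hST : S ⊆ T) : GenPos S :=
  fun a ha b hb c hc hab hac hbc => h a (hST ha) b (hST hb) c (hST hc) hab hac hbc

theorem det3_rotate (a b c : Pt) : det3 b c a = det3 a b c := by unfold det3; ring

theorem det3_swap (a b c : Pt) : det3 b a c = - det3 a b c := by unfold det3; ring

theorem det3_swap' (a b c : Pt) : det3 a c b = - det3 a b c := by unfold det3; ring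

theorem GenPos.det3_ne {S : Finset Pt} (h : GenPos S) {a b c : Pt} (ha : a ∈ S) (hb : b ∈ S)
    (hc : c ∈ S) (hab : a ≠ b) (hac : a ≠ c) (hbc : b ≠ c) : det3 a b c ≠ 0 :=
  fun h0 => h a ha b hb c hc hab hac hbc ((collinear_iff_det3 a b c).2 h0)

theorem genPos_of_det3 {S : Finset Pt} (h : ∀ a ∈ S, ∀ b ∈ S, ∀ c ∈ S, a ≠ b → a ≠ c → b ≠ c →
    det3 a b c ≠ 0) : GenPos S :=
  fun a ha b hb c hc hab hac hbc h0 =>
    h a ha b hb c hc hab hac hbc ((collinear_iff_det3 a b c).1 h0)

theorem genPos_insert {S : Finset Pt} {z : Pt} (hS : GenPos S)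
    (h : ∀ a ∈ S, ∀ b ∈ S, a ≠ b → det3 a b z ≠ 0) : GenPos (insert z S) := by
  apply genPos_of_det3
  intro a ha b hb c hc hab hac hbc
  rw [Finset.mem_insert] at ha hb hc
  rcases ha with rfl | ha
  · rcases hb with rfl | hb
    · exact absurd rfl hab
    · rcases hc with rfl | hc
      · exact absurd rfl hac
      · rw [← det3_rotate]; exact h b hb c hc hbc
  · rcases hb with rfl | hb
    · rcases hc with rfl | hc
      · exact absurd rfl hbc
      · rw [det3_swap']; exact neg_ne_zero.2 (h a ha c hc hac)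
    · rcases hc with rfl | hc
      · exact h a ha b hb hab
      · exact hS.det3_ne ha hb hc hab hac hbc

theorem finite_quadratic_roots (α β c : ℝ) (h : α ≠ 0 ∨ β ≠ 0) :
    {t : ℝ | α * t ^ 2 + β * t + c = 0}.Finite := by
  have hp : (Polynomial.C α * Polynomial.X ^ 2 + Polynomial.C β * Polynomial.X +
      Polynomial.C c : Polynomial ℝ) ≠ 0 := by
    intro h0
    rcases h with h | h
    · apply h
      have := congrArg (fun p => Polynomial.coeff p 2) h0
      simpa [Polynomial.coeff_X, Polynomial.coeff_C] using this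
    · apply h
      have := congrArg (fun p => Polynomial.coeff p 1) h0
      simpa [Polynomial.coeff_X, Polynomial.coeff_C] using this
  refine (Polynomial.finite_setOfPred_isRoot hp).subset ?_
  intro t ht
  simp only [Set.mem_ofPred_eq, Polynomial.IsRoot.def, Polynomial.eval_add, Polynomial.eval_mul,
    Polynomial.eval_C, Polynomial.eval_pow, Polynomial.eval_X] at ht ⊢
  exact ht

/-- In a nonempty open set there is a point that is new and not on any line through two points of
a given finite set. -/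
theorem exists_generic_point (S : Finset Pt) (O : Set Pt) (hO : IsOpen O) (hne : O.Nonempty) :
    ∃ z ∈ O, z ∉ S ∧ ∀ a ∈ S, ∀ b ∈ S, a ≠ b → det3 a b z ≠ 0 := by
  obtain ⟨z0, hz0⟩ := hne
  have hcont : Continuous (fun t : ℝ => ((z0.1 + t, z0.2 + t ^ 2) : Pt)) := by fun_prop
  have hopen : IsOpen ((fun t : ℝ => ((z0.1 + t, z0.2 + t ^ 2) : Pt)) ⁻¹' O) :=
    hO.preimage hcont
  have h0 : (0 : ℝ) ∈ ((fun t : ℝ => ((z0.1 + t, z0.2 + t ^ 2) : Pt)) ⁻¹' O) := by
    simpa using hz0
  obtain ⟨δ, hδ, hball⟩ := Metric.isOpen_iff.1 hopen 0 h0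
  have hinf : (Set.Ioo (0 : ℝ) δ).Infinite := Set.Ioo_infinite hδ
  have hbad : ((⋃ a ∈ S, {t : ℝ | (0 : ℝ) * t ^ 2 + 1 * t + (z0.1 - a.1) = 0}) ∪
      ⋃ q ∈ (S ×ˢ S).filter (fun q => q.1 ≠ q.2), {t : ℝ | (q.2.1 - q.1.1) * t ^ 2 +
        (-(q.2.2 - q.1.2)) * t + det3 q.1 q.2 z0 = 0}).Finite := by
    refine Set.Finite.union ?_ ?_
    · exact Set.Finite.biUnion S.finite_toSet (fun a _ => finite_quadratic_roots _ _ _ (Or.inr one_ne_zero))
    · refine Set.Finite.biUnion (Finset.finite_toSet _) (fun q hq => finite_quadratic_roots _ _ _ ?_)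
      have hq' : q.1 ≠ q.2 := (Finset.mem_filter.1 (Finset.mem_coe.1 hq)).2
      by_contra hcon
      push Not at hcon
      apply hq'
      exact Prod.ext (by linarith [hcon.1]) (by linarith [hcon.2])
  obtain ⟨t, ht, htb⟩ := (hinf.sdiff hbad).nonempty
  refine ⟨(z0.1 + t, z0.2 + t ^ 2), hball ?_, ?_, ?_⟩
  · rw [Metric.mem_ball, Real.dist_eq, sub_zero, abs_of_pos ht.1]; exact ht.2
  · intro hmem
    apply htb
    left
    simp only [Set.mem_iUnion]
    refine ⟨_, hmem, ?_⟩
    simp
  · intro a ha b hb hab hdet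
    apply htb
    right
    simp only [Set.mem_iUnion]
    refine ⟨(a, b), Finset.mem_filter.2 ⟨Finset.mem_product.2 ⟨ha, hb⟩, hab⟩, ?_⟩
    simp only [Set.mem_ofPred_eq]
    unfold det3 at hdet ⊢
    simp only at hdet
    linarith

/-- A generic point keeps the general position. -/
theorem exists_generic_insert (S : Finset Pt) (hS : GenPos S) (O : Set Pt) (hO : IsOpen O)
    (hne : O.Nonempty) : ∃ z ∈ O, z ∉ S ∧ GenPos (insert z S) := by
  obtain ⟨z, hz, hzS, h⟩ := exists_generic_point S O hO hne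
  exact ⟨z, hz, hzS, genPos_insert hS h⟩

end KHole
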