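import Pool.Agent.Helper89.Hole.Strat

/-!
Breaker's strategy from a ring system: two points next to the segment to the parent and a ring of
`N` points give a winning strategy with `N + 2` points per round.
-/

namespace KHole

open Metric

def RingProp {A N : ℕ} (φ : Fin A → Pt → ℝ) (E : Finset Pt) (v : Pt) (r : ℝ)
    (q : Fin N → Pt) : Prop :=
  ∀ X : Set Pt, Convex ℝ X → v ∈ X → ∀ u ∈ E, u ∈ X → ∀ w ∈ E, w ∈ X → u ≠ w →
    (∀ i, q i ∉ X) → ∃ j, ∀ p ∈ X, p ≠ v → (p ∈ E ∨ r < dist p v) → φ j v < φ j p

def RingSystem (A N : ℕ) (φ : Fin A → Pt → ℝ) : Prop :=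
  ∀ (E : Finset Pt) (v : Pt) (r : ℝ), v ∉ E → GenPos (insert v E) → 0 < r →
    ∃ O : Fin N → Set Pt, (∀ i, IsOpen (O i) ∧ (O i).Nonempty) ∧
      ∀ q : Fin N → Pt, (∀ i, q i ∈ O i) → RingProp φ E v r q

theorem pick_generic (N : ℕ) : ∀ (O : Fin N → Set Pt) (_ : ∀ i, IsOpen (O i) ∧ (O i).Nonempty)
    (S : Finset Pt) (_ : GenPos S), ∃ q : Fin N → Pt, (∀ i, q i ∈ O i) ∧ Function.Injective q ∧
      (∀ i, q i ∉ S) ∧ GenPos (S ∪ Finset.univ.image q) := by
  induction N with
  | zero =>
    intro O _ S hS
    refine ⟨fun i => i.elim0, fun i => i.elim0, fun i => i.elim0, fun i => i.elim0, ?_⟩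
    have : (Finset.univ.image (fun i : Fin 0 => (i.elim0 : Pt))) = ∅ := by
      simp
    simpa using hS
  | succ N ih =>
    intro O hO S hS
    obtain ⟨q, h1, h2, h3, h4⟩ := ih (fun i => O i.succ) (fun i => hO i.succ) S hS
    obtain ⟨z, hz, hzS, hz4⟩ := exists_generic_insert _ h4 (O 0) (hO 0).1 (hO 0).2
    rw [Finset.mem_union, not_or] at hzS
    refine ⟨Fin.cons z q, ?_, ?_, ?_, ?_⟩
    · intro i
      refine Fin.cases ?_ (fun i => ?_) i
      · simpa using hz
      · simpa using h1 i
    · rw [Fin.cons_injective_iff]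
      refine ⟨?_, h2⟩
      rintro ⟨i, hi⟩
      exact hzS.2 (Finset.mem_image.2 ⟨i, Finset.mem_univ _, hi⟩)
    · intro i
      refine Fin.cases ?_ (fun i => ?_) i
      · simpa using hzS.1
      · simpa using h3 i
    · have : S ∪ Finset.univ.image (Fin.cons z q : Fin (N + 1) → Pt) =
          insert z (S ∪ Finset.univ.image q) := by
        ext x
        simp only [Finset.mem_union, Finset.mem_image, Finset.mem_univ, true_and,
          Finset.mem_insert, Fin.exists_fin_succ, Fin.cons_zero, Fin.cons_succ]
        constructor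
        · rintro (h | h | h)
          · exact Or.inr (Or.inl h)
          · exact Or.inl h.symm
          · exact Or.inr (Or.inr h)
        · rintro (h | h | h)
          · exact Or.inr (Or.inl h.symm)
          · exact Or.inl h
          · exact Or.inr (Or.inr h)
      rw [this]
      exact hz4

/-- `x` is strictly inside the triangle `a b c`. -/
def StrictIn (x a b c : Pt) : Prop :=
  (0 < det3 a b x ∧ 0 < det3 b c x ∧ 0 < det3 c a x) ∨
    (det3 a b x < 0 ∧ det3 b c x < 0 ∧ det3 c a x < 0)

theorem StrictIn.mem_convexHull {x a b c : Pt} (h : StrictIn x a b c) :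
    x ∈ convexHull ℝ ({a, b, c} : Set Pt) := by
  have key : ∀ α β γ : ℝ, 0 ≤ α → 0 ≤ β → 0 ≤ γ → α + β + γ = 1 →
      x = α • a + β • b + γ • c → x ∈ convexHull ℝ ({a, b, c} : Set Pt) := by
    intro α β γ hα hβ hγ hsum hx
    have hconv := convex_convexHull ℝ ({a, b, c} : Set Pt)
    have ha : a ∈ convexHull ℝ ({a, b, c} : Set Pt) := subset_convexHull _ _ (by simp)
    have hb : b ∈ convexHull ℝ ({a, b, c} : Set Pt) := subset_convexHull _ _ (by simp)
    have hc : c ∈ convexHull ℝ ({a, b, c} : Set Pt) := subset_convexHull _ _ (by simp)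
    rw [hx]
    have := hconv.sum_mem (t := (Finset.univ : Finset (Fin 3))) (w := ![α, β, γ])
      (z := ![a, b, c]) ?_ ?_ ?_
    · simpa [Fin.sum_univ_three] using this
    · intro i _; fin_cases i <;> simp [hα, hβ, hγ]
    · simp [Fin.sum_univ_three, hsum]
    · intro i _; fin_cases i <;> simp [ha, hb, hc]
  have hid : det3 a b x + det3 b c x + det3 c a x = det3 a b c := by unfold det3; ring
  have hx1 : det3 a b c * x.1 = det3 b c x * a.1 + det3 c a x * b.1 + det3 a b x * c.1 := by
    unfold det3; ring
  have hx2 : det3 a b c * x.2 = det3 b c x * a.2 + det3 c a x * b.2 + det3 a b x * c.2 := by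
    unfold det3; ring
  have hD : det3 a b c ≠ 0 := by
    rcases h with ⟨h1, h2, h3⟩ | ⟨h1, h2, h3⟩
    · have : 0 < det3 a b c := by linarith
      exact this.ne'
    · have : det3 a b c < 0 := by linarith
      exact this.ne
  refine key (det3 b c x / det3 a b c) (det3 c a x / det3 a b c) (det3 a b x / det3 a b c)
    ?_ ?_ ?_ ?_ ?_
  · rcases h with ⟨h1, h2, h3⟩ | ⟨h1, h2, h3⟩
    · exact (div_pos h2 (by linarith)).le
    · exact (div_pos_of_neg_of_neg h2 (by linarith)).le
  · rcases h with ⟨h1, h2, h3⟩ | ⟨h1, h2, h3⟩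
    · exact (div_pos h3 (by linarith)).le
    · exact (div_pos_of_neg_of_neg h3 (by linarith)).le
  · rcases h with ⟨h1, h2, h3⟩ | ⟨h1, h2, h3⟩
    · exact (div_pos h1 (by linarith)).le
    · exact (div_pos_of_neg_of_neg h1 (by linarith)).le
  · field_simp; linarith
  · ext
    · simp only [Prod.fst_add, Prod.smul_fst, smul_eq_mul]
      field_simp
      linarith
    · simp only [Prod.snd_add, Prod.smul_snd, smul_eq_mul]
      field_simp
      linarith

theorem continuous_det3 {α : Type*} [TopologicalSpace α] {f g h : α → Pt} (hf : Continuous f)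
    (hg : Continuous g) (hh : Continuous h) : Continuous (fun x => det3 (f x) (g x) (h x)) := by
  unfold det3; fun_prop

/-- Two open sets next to the two sides of the segment `b z`. -/
theorem exists_adj_sets (b z : Pt) (W : Finset Pt) (hbz : b ≠ z) :
    ∃ O₁ O₂ : Set Pt, (IsOpen O₁ ∧ O₁.Nonempty) ∧ (IsOpen O₂ ∧ O₂.Nonempty) ∧
      ∀ x ∈ O₁, ∀ y ∈ O₂, ∀ w ∈ W, det3 b z w ≠ 0 → StrictIn x b z w ∨ StrictIn y b z w := by
  have hn : 0 < (z.1 - b.1) ^ 2 + (z.2 - b.2) ^ 2 := by
    rcases lt_or_eq_of_le (add_nonneg (sq_nonneg (z.1 - b.1)) (sq_nonneg (z.2 - b.2))) with h | h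
    · exact h
    · exfalso
      apply hbz
      have h1 : (z.1 - b.1) ^ 2 = 0 := by nlinarith [sq_nonneg (z.1 - b.1), sq_nonneg (z.2 - b.2)]
      have h2 : (z.2 - b.2) ^ 2 = 0 := by nlinarith [sq_nonneg (z.1 - b.1), sq_nonneg (z.2 - b.2)]
      have h3 := pow_eq_zero_iff (two_ne_zero) |>.1 h1
      have h4 := pow_eq_zero_iff (two_ne_zero) |>.1 h2
      exact Prod.ext (by linarith) (by linarith)
  let f : ℝ → Pt := fun t => ((b.1 + z.1) / 2 - t * (z.2 - b.2), (b.2 + z.2) / 2 + t * (z.1 - b.1))
  have hf : Continuous f := by fun_prop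
  have f0 : f 0 = ((b.1 + z.1) / 2, (b.2 + z.2) / 2) := by simp [f]
  have hdbz : ∀ t, det3 b z (f t) = t * ((z.1 - b.1) ^ 2 + (z.2 - b.2) ^ 2) := by
    intro t; simp only [f, det3]; ring
  have hzw : ∀ w, det3 z w (f 0) = det3 b z w / 2 := by
    intro w; rw [f0]; simp only [det3]; ring
  have hwb : ∀ w, det3 w b (f 0) = det3 b z w / 2 := by
    intro w; rw [f0]; simp only [det3]; ring
  refine ⟨{x | 0 < det3 b z x ∧ ∀ w ∈ W, 0 < det3 b z w → 0 < det3 z w x ∧ 0 < det3 w b x},
    {x | det3 b z x < 0 ∧ ∀ w ∈ W, det3 b z w < 0 → det3 z w x < 0 ∧ det3 w b x < 0},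
    ⟨?_, ?_⟩, ⟨?_, ?_⟩, ?_⟩
  · apply IsOpen.inter
    · exact isOpen_lt continuous_const (continuous_det3 continuous_const continuous_const
        continuous_id)
    · have : {x : Pt | ∀ w ∈ W, 0 < det3 b z w → 0 < det3 z w x ∧ 0 < det3 w b x} =
          ⋂ w ∈ W, {x : Pt | 0 < det3 b z w → 0 < det3 z w x ∧ 0 < det3 w b x} := by
        ext x; simp
      change IsOpen {x : Pt | ∀ w ∈ W, 0 < det3 b z w → 0 < det3 z w x ∧ 0 < det3 w b x}
      rw [this]
      refine isOpen_biInter_finset (fun w _ => ?_)
      by_cases hw : 0 < det3 b z w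
      · simp only [hw, true_imp_iff]
        exact IsOpen.inter
          (isOpen_lt continuous_const (continuous_det3 continuous_const continuous_const
            continuous_id))
          (isOpen_lt continuous_const (continuous_det3 continuous_const continuous_const
            continuous_id))
      · simp [hw]
  · have : ∀ᶠ t in nhdsWithin (0 : ℝ) (Set.Ioi 0), 0 < t ∧
        ∀ w ∈ W, 0 < det3 b z w → 0 < det3 z w (f t) ∧ 0 < det3 w b (f t) := by
      refine Filter.Eventually.and self_mem_nhdsWithin ?_
      refine Filter.Eventually.filter_mono nhdsWithin_le_nhds ?_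
      rw [Filter.eventually_all_finset]
      intro w _
      by_cases hw : 0 < det3 b z w
      · simp only [hw, true_imp_iff]
        refine Filter.Eventually.and ?_ ?_
        · have hc : Continuous (fun t => det3 z w (f t)) :=
            continuous_det3 continuous_const continuous_const hf
          exact (hc.tendsto 0).eventually (lt_mem_nhds (by rw [hzw]; linarith))
        · have hc : Continuous (fun t => det3 w b (f t)) :=
            continuous_det3 continuous_const continuous_const hf
          exact (hc.tendsto 0).eventually (lt_mem_nhds (by rw [hwb]; linarith))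
      · simp [hw]
    obtain ⟨t, ht, ht2⟩ := this.exists
    exact ⟨f t, by rw [hdbz]; positivity, ht2⟩
  · apply IsOpen.inter
    · exact isOpen_lt (continuous_det3 continuous_const continuous_const
        continuous_id) continuous_const
    · have : {x : Pt | ∀ w ∈ W, det3 b z w < 0 → det3 z w x < 0 ∧ det3 w b x < 0} =
          ⋂ w ∈ W, {x : Pt | det3 b z w < 0 → det3 z w x < 0 ∧ det3 w b x < 0} := by
        ext x; simp
      change IsOpen {x : Pt | ∀ w ∈ W, det3 b z w < 0 → det3 z w x < 0 ∧ det3 w b x < 0}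
      rw [this]
      refine isOpen_biInter_finset (fun w _ => ?_)
      by_cases hw : det3 b z w < 0
      · simp only [hw, true_imp_iff]
        exact IsOpen.inter
          (isOpen_lt (continuous_det3 continuous_const continuous_const
            continuous_id) continuous_const)
          (isOpen_lt (continuous_det3 continuous_const continuous_const
            continuous_id) continuous_const)
      · simp [hw]
  · have : ∀ᶠ t in nhdsWithin (0 : ℝ) (Set.Iio 0), t < 0 ∧
        ∀ w ∈ W, det3 b z w < 0 → det3 z w (f t) < 0 ∧ det3 w b (f t) < 0 := by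
      refine Filter.Eventually.and self_mem_nhdsWithin ?_
      refine Filter.Eventually.filter_mono nhdsWithin_le_nhds ?_
      rw [Filter.eventually_all_finset]
      intro w _
      by_cases hw : det3 b z w < 0
      · simp only [hw, true_imp_iff]
        refine Filter.Eventually.and ?_ ?_
        · have hc : Continuous (fun t => det3 z w (f t)) :=
            continuous_det3 continuous_const continuous_const hf
          exact (hc.tendsto 0).eventually (gt_mem_nhds (by rw [hzw]; linarith))
        · have hc : Continuous (fun t => det3 w b (f t)) :=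
            continuous_det3 continuous_const continuous_const hf
          exact (hc.tendsto 0).eventually (gt_mem_nhds (by rw [hwb]; linarith))
      · simp [hw]
    obtain ⟨t, ht, ht2⟩ := this.exists
    refine ⟨f t, ?_, ht2⟩
    rw [hdbz]
    exact mul_neg_of_neg_of_pos ht hn
  · rintro x ⟨hx1, hx2⟩ y ⟨hy1, hy2⟩ w hw hne
    rcases lt_or_gt_of_ne hne with h | h
    · right; right
      exact ⟨hy1, (hy2 w hw h).1, (hy2 w hw h).2⟩
    · left; left
      exact ⟨hx1, (hx2 w hw h).1, (hx2 w hw h).2⟩

theorem StrictIn.eventually {x b z w : Pt} (h : StrictIn x b z w) :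
    ∀ᶠ b' in nhds b, StrictIn x b' z w := by
  have h1 : Continuous (fun b' : Pt => det3 b' z x) :=
    continuous_det3 continuous_id continuous_const continuous_const
  have h2 : Continuous (fun b' : Pt => det3 w b' x) :=
    continuous_det3 continuous_const continuous_id continuous_const
  rcases h with ⟨ha, hb, hc⟩ | ⟨ha, hb, hc⟩
  · have e1 := (h1.tendsto b).eventually (lt_mem_nhds ha)
    have e2 := (h2.tendsto b).eventually (lt_mem_nhds hc)
    filter_upwards [e1, e2] with b' k1 k2
    exact Or.inl ⟨k1, hb, k2⟩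
  · have e1 := (h1.tendsto b).eventually (gt_mem_nhds ha)
    have e2 := (h2.tendsto b).eventually (gt_mem_nhds hc)
    filter_upwards [e1, e2] with b' k1 k2
    exact Or.inr ⟨k1, hb, k2⟩

end KHole
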