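import Pool.Agent.Helper89.Hole.Breaker

/-!
The invariant of Breaker's strategy, its preservation, and the conclusion.
-/

namespace KHole

open Metric

structure Inv {A : ℕ} (φ : Fin A → Pt → ℝ) (M B : Finset Pt) (t : Pt → ℕ) (r : Pt → ℝ) :
    Prop where
  pos : ∀ y ∈ M, 0 < r y
  inj : ∀ y ∈ M, ∀ y' ∈ M, t y = t y' → y = y'
  disj : ∀ y ∈ M, ∀ b ∈ M, t y < t b → b ∉ closedBall y (r y) →
    Disjoint (closedBall b (r b)) (closedBall y (r y))
  block : ∀ w ∈ M, ∀ z ∈ M, ∀ b ∈ M, t w < t z → t z < t b → b ∈ closedBall z (r z) →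
    ∃ x ∈ B, ∀ b' ∈ closedBall b (2 * r b), x ∈ convexHull ℝ ({w, z, b'} : Set Pt)
  ring : ∀ v ∈ M, ∀ X : Set Pt, Convex ℝ X → v ∈ X → ∀ u ∈ M, t u < t v → u ∈ X →
    ∀ w ∈ M, t w < t v → w ∈ X → u ≠ w → (∀ q ∈ B, q ∉ X) →
    ∃ j, ∀ p ∈ X, p ≠ v → ((p ∈ M ∧ t p < t v) ∨ r v < dist p v) → φ j v < φ j p

theorem Inv.empty {A : ℕ} (φ : Fin A → Pt → ℝ) : Inv φ ∅ ∅ (fun _ => 0) (fun _ => 0) :=
  ⟨by simp, by simp, by simp, by simp, by simp⟩

/-- Existence of the two adjacency points and of the radius. -/
theorem exists_adj {A : ℕ} {φ : Fin A → Pt → ℝ} {M B : Finset Pt} {t : Pt → ℕ} {r : Pt → ℝ}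
    (h : Inv φ M B t r) {b : Pt} (hbM : b ∉ M) (hg : GenPos (insert b (M ∪ B))) :
    ∃ (K : Fin 2 → Pt) (ρ : ℝ), Function.Injective K ∧ (∀ i, K i ∉ insert b (M ∪ B)) ∧
      GenPos (insert b (M ∪ B) ∪ Finset.univ.image K) ∧ 0 < ρ ∧
      (∀ y ∈ M, 2 * ρ ≤ r y) ∧
      (∀ y ∈ M, b ∉ closedBall y (r y) → Disjoint (closedBall b ρ) (closedBall y (r y))) ∧
      (∀ w ∈ M, ∀ z ∈ M, t w < t z → b ∈ closedBall z (r z) →
        ∃ x ∈ B ∪ Finset.univ.image K, ∀ b' ∈ closedBall b (2 * ρ),
          x ∈ convexHull ℝ ({w, z, b'} : Set Pt)) := by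
  classical
  -- conditions on the radius that do not involve the new points
  have hev1 : ∀ᶠ ρ in nhdsWithin (0 : ℝ) (Set.Ioi 0), ∀ y ∈ M, 2 * ρ ≤ r y := by
    rw [Filter.eventually_all_finset]
    intro y hy
    have hc : Filter.Tendsto (fun ρ : ℝ => 2 * ρ) (nhdsWithin (0 : ℝ) (Set.Ioi 0)) (nhds (2 * 0)) :=
      ((continuous_const.mul continuous_id).tendsto 0).mono_left nhdsWithin_le_nhds
    have := hc.eventually (gt_mem_nhds (show 2 * 0 < r y by simpa using h.pos y hy))
    filter_upwards [this] with ρ hρ using hρ.le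
  have hev2 : ∀ᶠ ρ in nhdsWithin (0 : ℝ) (Set.Ioi 0), ∀ y ∈ M, b ∉ closedBall y (r y) →
      Disjoint (closedBall b ρ) (closedBall y (r y)) := by
    rw [Filter.eventually_all_finset]
    intro y hy
    by_cases hb : b ∈ closedBall y (r y)
    · simp [hb]
    · rw [mem_closedBall, not_le] at hb
      have hc : Filter.Tendsto (fun ρ : ℝ => ρ + r y) (nhdsWithin (0 : ℝ) (Set.Ioi 0))
          (nhds (0 + r y)) :=
        ((continuous_id.add continuous_const).tendsto 0).mono_left nhdsWithin_le_nhds
      have := hc.eventually (gt_mem_nhds (show 0 + r y < dist b y by simpa using hb))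
      filter_upwards [this] with ρ hρ _
      exact closedBall_disjoint_closedBall hρ
  have hev0 : ∀ᶠ ρ in nhdsWithin (0 : ℝ) (Set.Ioi 0), 0 < ρ := self_mem_nhdsWithin
  by_cases hpar : (M.filter (fun y => b ∈ closedBall y (r y))).Nonempty
  · obtain ⟨z, hz, hzmax⟩ := Finset.exists_max_image _ t hpar
    rw [Finset.mem_filter] at hz
    obtain ⟨hzM, hzb⟩ := hz
    have hbz : b ≠ z := by rintro rfl; exact hbM hzM
    obtain ⟨O₁, O₂, hO₁, hO₂, hadj⟩ := exists_adj_sets b z (M.filter (fun w => t w < t z)) hbz
    obtain ⟨K, hK1, hK2, hK3, hK4⟩ := pick_generic 2 ![O₁, O₂]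
      (by intro i; fin_cases i <;> simp [hO₁, hO₂]) _ hg
    have hK0 : K 0 ∈ O₁ := by simpa using hK1 0
    have hK1' : K 1 ∈ O₂ := by simpa using hK1 1
    have hdet : ∀ w ∈ M.filter (fun w => t w < t z), det3 b z w ≠ 0 := by
      intro w hw
      rw [Finset.mem_filter] at hw
      have hwz : w ≠ z := by rintro rfl; exact lt_irrefl _ hw.2
      have hbw : b ≠ w := by rintro rfl; exact hbM hw.1
      exact hg.det3_ne (Finset.mem_insert_self _ _)
        (Finset.mem_insert_of_mem (Finset.mem_union_left _ hzM))
        (Finset.mem_insert_of_mem (Finset.mem_union_left _ hw.1)) hbz hbw hwz.symm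
    have hstr : ∀ w ∈ M.filter (fun w => t w < t z), ∃ x ∈ Finset.univ.image K,
        StrictIn x b z w := by
      intro w hw
      rcases hadj _ hK0 _ hK1' w hw (hdet w hw) with h' | h'
      · exact ⟨K 0, Finset.mem_image_of_mem _ (Finset.mem_univ _), h'⟩
      · exact ⟨K 1, Finset.mem_image_of_mem _ (Finset.mem_univ _), h'⟩
    have hev3 : ∀ᶠ ρ in nhdsWithin (0 : ℝ) (Set.Ioi 0), ∀ w ∈ M.filter (fun w => t w < t z),
        ∃ x ∈ Finset.univ.image K, ∀ b' ∈ closedBall b (2 * ρ), StrictIn x b' z w := by
      rw [Filter.eventually_all_finset]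
      intro w hw
      obtain ⟨x, hx, hxs⟩ := hstr w hw
      obtain ⟨δ, hδ, hball⟩ := Metric.eventually_nhds_iff_ball.1 hxs.eventually
      have hc : Filter.Tendsto (fun ρ : ℝ => 2 * ρ) (nhdsWithin (0 : ℝ) (Set.Ioi 0))
          (nhds (2 * 0)) :=
        ((continuous_const.mul continuous_id).tendsto 0).mono_left nhdsWithin_le_nhds
      have := hc.eventually (gt_mem_nhds (show 2 * 0 < δ by simpa using hδ))
      filter_upwards [this] with ρ hρ
      exact ⟨x, hx, fun b' hb' => hball b' (closedBall_subset_ball hρ hb')⟩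
    obtain ⟨ρ, h0, h1, h2, h3⟩ := (hev0.and (hev1.and (hev2.and hev3))).exists
    refine ⟨K, ρ, hK2, hK3, hK4, h0, h1, h2, ?_⟩
    intro w hw z' hz' hwz' hbz'
    by_cases hzz : z' = z
    · subst hzz
      obtain ⟨x, hx, hxs⟩ := h3 w (Finset.mem_filter.2 ⟨hw, hwz'⟩)
      refine ⟨x, Finset.mem_union_right _ hx, fun b' hb' => ?_⟩
      have := (hxs b' hb').mem_convexHull
      have hset : ({b', z', w} : Set Pt) = {w, z', b'} := by
        ext y; simp only [Set.mem_insert_iff, Set.mem_singleton_iff]; tauto
      rwa [hset] at this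
    · have htz : t z' < t z := by
        rcases lt_or_eq_of_le (hzmax z' (Finset.mem_filter.2 ⟨hz', hbz'⟩)) with h' | h'
        · exact h'
        · exact absurd (h.inj z' hz' z hzM h') hzz
      have hzin : z ∈ closedBall z' (r z') := by
        by_contra hcon
        have := h.disj z' hz' z hzM htz hcon
        exact Set.disjoint_left.1 this hzb hbz'
      obtain ⟨x, hx, hxs⟩ := h.block w hw z' hz' z hzM hwz' htz hzin
      refine ⟨x, Finset.mem_union_left _ hx, fun b' hb' => hxs b' ?_⟩
      rw [mem_closedBall] at hb' hzb ⊢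
      have := dist_triangle b' b z
      have := h1 z hzM
      linarith
  · obtain ⟨K, hK1, hK2, hK3, hK4⟩ := pick_generic 2 (fun _ => Set.univ)
      (fun _ => ⟨isOpen_univ, Set.univ_nonempty⟩) _ hg
    obtain ⟨ρ, h0, h1, h2⟩ := (hev0.and (hev1.and hev2)).exists
    refine ⟨K, ρ, hK2, hK3, hK4, h0, h1, h2, ?_⟩
    intro w _ z hz _ hbz
    exact absurd ⟨z, Finset.mem_filter.2 ⟨hz, hbz⟩⟩ hpar

/-- The invariant is preserved. -/
theorem Inv.step {A N : ℕ} {φ : Fin A → Pt → ℝ} (hR : RingSystem A N φ) {M B : Finset Pt}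
    {t : Pt → ℕ} {r : Pt → ℝ} (h : Inv φ M B t r) {b : Pt} (hb : MakerLegal M B b) :
    ∃ R : Finset Pt, BreakerLegal (N + 2) (insert b M) B R ∧
      ∃ t' r', Inv φ (insert b M) (B ∪ R) t' r' := by
  classical
  obtain ⟨hb1, hg⟩ := hb
  rw [Finset.mem_union, not_or] at hb1
  obtain ⟨hbM, hbB⟩ := hb1
  obtain ⟨K, ρ, hK1, hK2, hK3, hρ, hρ1, hρ2, hblock⟩ := exists_adj h hbM hg
  have hgM : GenPos (insert b M) :=
    hg.subset (Finset.insert_subset_insert _ Finset.subset_union_left)
  obtain ⟨O, hO, hring⟩ := hR M b ρ hbM hgM hρ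
  obtain ⟨q, hq1, hq2, hq3, hq4⟩ := pick_generic N O hO _ hK3
  have hKq : Disjoint (Finset.univ.image K) (Finset.univ.image q) := by
    rw [Finset.disjoint_left]
    intro x hx hx'
    obtain ⟨i, _, rfl⟩ := Finset.mem_image.1 hx'
    exact hq3 i (Finset.mem_union_right _ hx)
  have hunion : insert b M ∪ B ∪ (Finset.univ.image K ∪ Finset.univ.image q) =
      insert b (M ∪ B) ∪ Finset.univ.image K ∪ Finset.univ.image q := by
    rw [Finset.insert_union, ← Finset.union_assoc]
  refine ⟨Finset.univ.image K ∪ Finset.univ.image q, ⟨?_, ?_, ?_⟩, ?_⟩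
  · rw [Finset.card_union_of_disjoint hKq, Finset.card_image_of_injective _ hK1,
      Finset.card_image_of_injective _ hq2, Finset.card_univ, Finset.card_univ, Fintype.card_fin,
      Fintype.card_fin]
    omega
  · rw [Finset.disjoint_left]
    intro x hx hx'
    rw [Finset.insert_union] at hx'
    rcases Finset.mem_union.1 hx with hx | hx
    · obtain ⟨i, _, rfl⟩ := Finset.mem_image.1 hx
      exact hK2 i hx'
    · obtain ⟨i, _, rfl⟩ := Finset.mem_image.1 hx
      exact hq3 i (Finset.mem_union_left _ hx')
  · rw [hunion]; exact hq4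
  · have hT : ∀ y ∈ M, t y < M.sup t + 1 := fun y hy => Nat.lt_succ_of_le (Finset.le_sup hy)
    have hne : ∀ y ∈ M, y ≠ b := by rintro y hy rfl; exact hbM hy
    have ht : ∀ y ∈ M, (if y = b then M.sup t + 1 else t y) = t y :=
      fun y hy => if_neg (hne y hy)
    have hr : ∀ y ∈ M, (if y = b then ρ else r y) = r y := fun y hy => if_neg (hne y hy)
    refine ⟨fun y => if y = b then M.sup t + 1 else t y, fun y => if y = b then ρ else r y, ?_⟩
    constructor
    · intro y hy
      rcases Finset.mem_insert.1 hy with rfl | hy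
      · simpa using hρ
      · simp only [hr y hy]; exact h.pos y hy
    · intro y hy y' hy' hyy
      rcases Finset.mem_insert.1 hy with hyb | hyM
      · rcases Finset.mem_insert.1 hy' with hyb' | hyM'
        · rw [hyb, hyb']
        · rw [ht y' hyM', if_pos hyb] at hyy
          have := hT y' hyM'
          omega
      · rcases Finset.mem_insert.1 hy' with hyb' | hyM'
        · rw [ht y hyM, if_pos hyb'] at hyy
          have := hT y hyM
          omega
        · rw [ht y hyM, ht y' hyM'] at hyy
          exact h.inj y hyM y' hyM' hyy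
    · intro y hy b' hb' hlt hnot
      rcases Finset.mem_insert.1 hy with hyb | hyM
      · exfalso
        rcases Finset.mem_insert.1 hb' with hbb' | hbM'
        · rw [hyb, hbb'] at hlt
          exact lt_irrefl _ hlt
        · rw [ht b' hbM', if_pos hyb] at hlt
          have := hT b' hbM'
          omega
      · rcases Finset.mem_insert.1 hb' with hbb' | hbM'
        · rw [hr y hyM] at hnot ⊢
          rw [hbb'] at hnot ⊢
          rw [if_pos rfl]
          exact hρ2 y hyM hnot
        · rw [hr y hyM] at hnot ⊢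
          rw [ht y hyM, ht b' hbM'] at hlt
          rw [hr b' hbM']
          exact h.disj y hyM b' hbM' hlt hnot
    · intro w hw z hz b' hb' hwz hzb hin
      have hzM : z ∈ M := by
        rcases Finset.mem_insert.1 hz with rfl | hz
        · exfalso
          rcases Finset.mem_insert.1 hb' with rfl | hb'
          · exact lt_irrefl _ hzb
          · simp only [ht b' hb', if_true] at hzb
            have := hT b' hb'
            omega
        · exact hz
      have hwM : w ∈ M := by
        rcases Finset.mem_insert.1 hw with rfl | hw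
        · exfalso
          simp only [ht z hzM, if_true] at hwz
          have := hT z hzM
          omega
        · exact hw
      simp only [ht w hwM, ht z hzM] at hwz
      simp only [hr z hzM] at hin
      rcases Finset.mem_insert.1 hb' with rfl | hb'M
      · obtain ⟨x, hx, hxs⟩ := hblock w hwM z hzM hwz hin
        refine ⟨x, ?_, ?_⟩
        · rcases Finset.mem_union.1 hx with hx | hx
          · exact Finset.mem_union_left _ hx
          · exact Finset.mem_union_right _ (Finset.mem_union_left _ hx)
        · simpa using hxs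
      · simp only [ht z hzM, ht b' hb'M] at hzb
        obtain ⟨x, hx, hxs⟩ := h.block w hwM z hzM b' hb'M hwz hzb hin
        refine ⟨x, Finset.mem_union_left _ hx, ?_⟩
        simp only [hr b' hb'M]
        exact hxs
    · intro v hv X hX hvX u hu huv huX w hw hwv hwX huw hB
      rcases Finset.mem_insert.1 hv with rfl | hvM
      · have huM : u ∈ M := by
          rcases Finset.mem_insert.1 hu with rfl | hu
          · exact absurd huv (lt_irrefl _)
          · exact hu
        have hwM : w ∈ M := by
          rcases Finset.mem_insert.1 hw with rfl | hw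
          · exact absurd hwv (lt_irrefl _)
          · exact hw
        obtain ⟨j, hj⟩ := hring q hq1 X hX hvX u huM huX w hwM hwX huw
          (fun i => hB (q i) (Finset.mem_union_right _ (Finset.mem_union_right _
            (Finset.mem_image_of_mem _ (Finset.mem_univ _)))))
        refine ⟨j, fun p hp hpv hor => hj p hp hpv ?_⟩
        rcases hor with ⟨hpM, _⟩ | hd
        · rcases Finset.mem_insert.1 hpM with rfl | hpM
          · exact absurd rfl hpv
          · exact Or.inl hpM
        · simp only [if_true] at hd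
          exact Or.inr hd
      · have huM : u ∈ M := by
          rcases Finset.mem_insert.1 hu with rfl | hu
          · simp only [ht v hvM, if_true] at huv
            have := hT v hvM
            omega
          · exact hu
        have hwM : w ∈ M := by
          rcases Finset.mem_insert.1 hw with rfl | hw
          · simp only [ht v hvM, if_true] at hwv
            have := hT v hvM
            omega
          · exact hw
        simp only [ht v hvM, ht u huM] at huv
        simp only [ht v hvM, ht w hwM] at hwv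
        obtain ⟨j, hj⟩ := h.ring v hvM X hX hvX u huM huv huX w hwM hwv hwX huw
          (fun q' hq' => hB q' (Finset.mem_union_left _ hq'))
        refine ⟨j, fun p hp hpv hor => hj p hp hpv ?_⟩
        rcases hor with ⟨hpM, hlt⟩ | hd
        · rcases Finset.mem_insert.1 hpM with rfl | hpM
          · simp only [ht v hvM, if_true] at hlt
            have := hT v hvM
            omega
          · simp only [ht v hvM, ht p hpM] at hlt
            exact Or.inl ⟨hpM, hlt⟩
        · simp only [hr v hvM] at hd
          exact Or.inr hd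

/-- Holes of Maker in a position with the invariant are small. -/
theorem Inv.card_le {A : ℕ} {φ : Fin A → Pt → ℝ} {M B : Finset Pt}
    {t : Pt → ℕ} {r : Pt → ℝ} (h : Inv φ M B t r) (hd : Disjoint M B) {k : ℕ} {H : Finset Pt}
    (hHM : H ⊆ M) (hH : IsHole k (M ∪ B) H) : k ≤ A + 2 := by
  classical
  by_contra hk
  push Not at hk
  obtain ⟨_, hcard, hconv, hemp⟩ := hH
  set X : Set Pt := convexHull ℝ (H : Set Pt) with hX
  have hXc : Convex ℝ X := convex_convexHull _ _
  have hmem : ∀ x ∈ H, x ∈ X := fun x hx => subset_convexHull _ _ hx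
  have hBX : ∀ x ∈ B, x ∉ X := by
    intro x hx hxX
    exact Finset.disjoint_left.1 hd (hHM (hemp x (Finset.mem_union_right _ hx) hxX)) hx
  have hHne : H.Nonempty := by rw [← Finset.card_pos]; omega
  obtain ⟨v1, hv1, hmin1⟩ := Finset.exists_min_image H t hHne
  have hne2 : (H.erase v1).Nonempty := by
    rw [← Finset.card_pos, Finset.card_erase_of_mem hv1]; omega
  obtain ⟨v2, hv2, hmin2⟩ := Finset.exists_min_image (H.erase v1) t hne2
  have hv2H := Finset.mem_of_mem_erase hv2
  have hv12 : v1 ≠ v2 := (Finset.ne_of_mem_erase hv2).symm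
  have hlt : ∀ v ∈ (H.erase v1).erase v2, t v1 < t v ∧ t v2 < t v := by
    intro v hv
    rw [Finset.mem_erase, Finset.mem_erase] at hv
    obtain ⟨hv2', hv1', hvH⟩ := hv
    constructor
    · rcases lt_or_eq_of_le (hmin1 v hvH) with h' | h'
      · exact h'
      · exact absurd (h.inj v1 (hHM hv1) v (hHM hvH) h').symm hv1'
    · rcases lt_or_eq_of_le (hmin2 v (Finset.mem_erase.2 ⟨hv1', hvH⟩)) with h' | h'
      · exact h'
      · exact absurd (h.inj v2 (hHM hv2H) v (hHM hvH) h').symm hv2'
  have hj : ∀ v ∈ (H.erase v1).erase v2, ∃ j, ∀ p ∈ H, p ≠ v → φ j v < φ j p := by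
    intro v hv
    have hvH : v ∈ H := Finset.mem_of_mem_erase (Finset.mem_of_mem_erase hv)
    obtain ⟨h1, h2⟩ := hlt v hv
    obtain ⟨j, hj⟩ := h.ring v (hHM hvH) X hXc (hmem v hvH) v1 (hHM hv1) h1 (hmem v1 hv1)
      v2 (hHM hv2H) h2 (hmem v2 hv2H) hv12 hBX
    refine ⟨j, fun p hp hpv => hj p (hmem p hp) hpv ?_⟩
    rcases lt_trichotomy (t p) (t v) with h' | h' | h'
    · exact Or.inl ⟨hHM hp, h'⟩
    · exact absurd (h.inj p (hHM hp) v (hHM hvH) h') hpv
    · right
      by_contra hcon
      push Not at hcon
      obtain ⟨x, hx, hxs⟩ := h.block v1 (hHM hv1) v (hHM hvH) p (hHM hp) h1 h'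
        (mem_closedBall.2 hcon)
      have := hxs p (mem_closedBall_self (by have := h.pos p (hHM hp); linarith))
      refine hBX x hx (convexHull_mono ?_ this)
      intro y hy
      simp only [Set.mem_insert_iff, Set.mem_singleton_iff] at hy
      rcases hy with rfl | rfl | rfl
      · exact hv1
      · exact hvH
      · exact hp
  have hFne : ((H.erase v1).erase v2).Nonempty := by
    rw [← Finset.card_pos, Finset.card_erase_of_mem hv2, Finset.card_erase_of_mem hv1, hcard]
    omega
  haveI : Nonempty (Fin A) := by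
    obtain ⟨v, hv⟩ := hFne
    obtain ⟨j, _⟩ := hj v hv
    exact ⟨j⟩
  choose! f hf using hj
  have hinj : Set.InjOn f ((H.erase v1).erase v2 : Finset Pt) := by
    intro a ha b hb hab
    by_contra hne
    have haH : a ∈ H := Finset.mem_of_mem_erase (Finset.mem_of_mem_erase ha)
    have hbH : b ∈ H := Finset.mem_of_mem_erase (Finset.mem_of_mem_erase hb)
    have h1 := hf a ha b hbH (Ne.symm hne)
    have h2 := hf b hb a haH hne
    rw [hab] at h1
    exact lt_asymm h1 h2
  have hle := Finset.card_le_card_of_injOn f (fun a _ => Finset.mem_univ _) hinj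
  rw [Finset.card_univ, Fintype.card_fin, Finset.card_erase_of_mem hv2,
    Finset.card_erase_of_mem hv1, hcard] at hle
  omega

/-- A ring system with `N` points and `A` functionals lets Breaker win the `k`-hole game for all
`k ≥ A + 4` with `N + 2` points per round. -/
theorem breakerWins_of_ring {A N : ℕ} {φ : Fin A → Pt → ℝ} (hR : RingSystem A N φ) {k : ℕ}
    (hk : A + 4 ≤ k) {c : ℕ → ℕ} (hc : ∀ n, c n = N + 2) : BreakerWins k c := by
  classical
  refine breakerWins_of_inv (fun l B => Disjoint l.toFinset B ∧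
    ∃ t r, Inv φ l.toFinset B t r) ?_ ?_ ?_
  · exact ⟨by simp, _, _, by simpa using Inv.empty φ⟩
  · rintro l B m ⟨hd, t, r, hinv⟩ hm
    obtain ⟨R, hR1, t', r', hinv'⟩ := hinv.step hR hm
    refine ⟨R, by rw [hc]; exact hR1, ?_, t', r', ?_⟩
    · rw [List.toFinset_cons, Finset.disjoint_union_right]
      refine ⟨?_, ?_⟩
      · rw [Finset.disjoint_insert_left]
        exact ⟨fun h => hm.1 (Finset.mem_union_right _ h), hd⟩
      · exact (Finset.disjoint_union_right.1 hR1.2.1).1.symm
    · rw [List.toFinset_cons]; exact hinv'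
  · rintro l B m ⟨hd, t, r, hinv⟩ hm hhole
    have hhole' : MakerHasHole (A + 4) (insert m l.toFinset) B := hasHole_of_le hk hhole
    obtain ⟨H, hHM, hH⟩ := hhole'
    have hmS : m ∉ l.toFinset ∪ B := hm.1
    -- a hole with at least `A + 3` points in the old position
    have hold : ∃ k' ≥ A + 3, ∃ H' ⊆ l.toFinset, IsHole k' (l.toFinset ∪ B) H' := by
      by_cases hmH : m ∈ H
      · refine ⟨A + 3, le_rfl, H.erase m, ?_, ?_⟩
        · intro x hx
          rw [Finset.mem_erase] at hx
          rcases Finset.mem_insert.1 (hHM hx.2) with h | h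
          · exact absurd h hx.1
          · exact h
        · have h1 := IsHole.erase (k := A + 3) hH hmH
          obtain ⟨ha, hb, hc', hd'⟩ := h1
          refine ⟨?_, hb, hc', ?_⟩
          · intro x hx
            have := ha hx
            rw [Finset.mem_erase] at hx
            rw [Finset.insert_union, Finset.mem_insert] at this
            rcases this with h | h
            · exact absurd h hx.1
            · exact h
          · intro x hx hxc
            exact hd' x (by rw [Finset.insert_union]; exact Finset.mem_insert_of_mem hx) hxc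
      · refine ⟨A + 4, by omega, H, ?_, ?_⟩
        · intro x hx
          rcases Finset.mem_insert.1 (hHM hx) with h | h
          · exact absurd (h ▸ hx) hmH
          · exact h
        · obtain ⟨ha, hb, hc', hd'⟩ := hH
          refine ⟨?_, hb, hc', ?_⟩
          · intro x hx
            have := ha hx
            rw [Finset.insert_union, Finset.mem_insert] at this
            rcases this with h | h
            · exact absurd (h ▸ hx) hmH
            · exact h
          · intro x hx hxc
            exact hd' x (by rw [Finset.insert_union]; exact Finset.mem_insert_of_mem hx) hxc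
    obtain ⟨k', hk', H', hH'M, hH'⟩ := hold
    have := hinv.card_le hd hH'M hH'
    omega

end KHole
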