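import Mathlib

/-!
Definitions for the bichromatic Maker-Breaker k-hole game (problem MP_91a033_co).
-/

namespace KHole

/-- The plane. -/
abbrev Pt := ℝ × ℝ

/-- General position: no three different points of `S` are collinear. -/
def GenPos (S : Finset Pt) : Prop :=
  ∀ a ∈ S, ∀ b ∈ S, ∀ c ∈ S, a ≠ b → a ≠ c → b ≠ c → ¬ Collinear ℝ ({a, b, c} : Set Pt)

/-- `H` is a `k`-hole of `S`: `k` points of `S` in convex position (so that `conv H` is a convex
`k`-gon with vertex set `H`) whose convex hull contains no further point of `S`. -/
def IsHole (k : ℕ) (S H : Finset Pt) : Prop :=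
  H ⊆ S ∧ H.card = k ∧
    (∀ x ∈ H, x ∉ convexHull ℝ ((H.erase x : Finset Pt) : Set Pt)) ∧
    ∀ x ∈ S, x ∈ convexHull ℝ (H : Set Pt) → x ∈ H

/-- In the position with Maker's points `M` and Breaker's points `B`, Maker may place `m`. -/
def MakerLegal (M B : Finset Pt) (m : Pt) : Prop :=
  m ∉ M ∪ B ∧ GenPos (insert m (M ∪ B))

/-- In the position with Maker's points `M` and Breaker's points `B`, Breaker may place the set
`R` of exactly `s` new points. -/
def BreakerLegal (s : ℕ) (M B R : Finset Pt) : Prop :=
  R.card = s ∧ Disjoint R (M ∪ B) ∧ GenPos (M ∪ B ∪ R)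

/-- Maker wins with the point set `M` (Breaker's points being `B`): some `k`-hole of the set of
all points consists of Maker's points. -/
def MakerHasHole (k : ℕ) (M B : Finset Pt) : Prop :=
  ∃ H ⊆ M, IsHole k (M ∪ B) H

/-- The set of Breaker's points when Maker has played the moves in the list (most recent move
first) and Breaker has followed the strategy `σ`. -/
noncomputable def brk (σ : List Pt → Finset Pt) : List Pt → Finset Pt
  | [] => ∅
  | m :: l => brk σ l ∪ σ (m :: l)

/-- All moves of Maker in the list (most recent first) were legal when made, Breaker having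
followed the strategy `σ`. -/
def LegalPlay (σ : List Pt → Finset Pt) : List Pt → Prop
  | [] => True
  | m :: l => LegalPlay σ l ∧ MakerLegal l.toFinset (brk σ l) m

/-- Breaker has a winning strategy in the bichromatic `k`-hole game in which she places `c n`
points in the `n`-th round (`n = 0, 1, ...`).  A strategy assigns to the list of Maker's moves so
far (most recent first) the set of points that Breaker places now.  It is winning if in every play
against it there is never a hole of Maker after a move of Maker, and the strategy always answers
with a legal move. -/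
def BreakerWins (k : ℕ) (c : ℕ → ℕ) : Prop :=
  ∃ σ : List Pt → Finset Pt, ∀ (l : List Pt) (m : Pt), LegalPlay σ (m :: l) →
    ¬ MakerHasHole k (insert m l.toFinset) (brk σ l) ∧
    BreakerLegal (c l.length) (insert m l.toFinset) (brk σ l) (σ (m :: l))

/-- Maker can force a win from the position `(M, B)` before round `n`. -/
inductive MakerForces (k : ℕ) (c : ℕ → ℕ) : ℕ → Finset Pt → Finset Pt → Prop
  | win (n : ℕ) (M B : Finset Pt) (m : Pt) (hm : MakerLegal M B m)
      (h : MakerHasHole k (insert m M) B) : MakerForces k c n M B
  | step (n : ℕ) (M B : Finset Pt) (m : Pt) (hm : MakerLegal M B m)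
      (h : ∀ R : Finset Pt, BreakerLegal (c n) (insert m M) B R →
        MakerForces k c (n + 1) (insert m M) (B ∪ R)) : MakerForces k c n M B

/-- Maker has a winning strategy in the game with Breaker's numbers of points `c`. -/
def MakerWins (k : ℕ) (c : ℕ → ℕ) : Prop := MakerForces k c 0 ∅ ∅

/-- The schedule of the speed `a / b`: in a cycle of `b` rounds Breaker places `⌊a/b⌋` points per
round in the first rounds and `⌈a/b⌉` points per round in the last `a % b` rounds of the cycle,
`a` points in total. -/
def sched (a b n : ℕ) : ℕ := if n % b < b - a % b then a / b else a / b + 1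

/-- `s(k)`: the infimum of all positive rational speeds with which Breaker wins the `k`-hole game;
`⊤` if there is none. -/
noncomputable def speed (k : ℕ) : ENNReal :=
  sInf {x : ENNReal | ∃ a b : ℕ, 0 < a ∧ 0 < b ∧ x = (a : ENNReal) / (b : ENNReal) ∧
    BreakerWins k (sched a b)}

end KHole
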