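import Pool.Agent.Helper89.Hole.Basic

/-!
Extension of a hole by one new point.
-/

namespace KHole

open Filter Topology

theorem closed_hull (K : Finset Pt) : IsClosed (convexHull ℝ (K : Set Pt)) :=
  (Set.Finite.isCompact_convexHull ℝ K.finite_toSet).isClosed

theorem eventually_notMem_hull {x m : Pt} {K : Finset Pt}
    (h : x ∉ convexHull ℝ ((insert m K : Finset Pt) : Set Pt)) :
    ∀ᶠ m' in 𝓝 m, x ∉ convexHull ℝ ((insert m' K : Finset Pt) : Set Pt) := by
  obtain ⟨f, u, hfx, hf⟩ := geometric_hahn_banach_point_closed (convex_convexHull ℝ _)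
    (closed_hull _) h
  have hm : u < f m := hf m (subset_convexHull _ _ (by simp))
  have hev : ∀ᶠ m' in 𝓝 m, u < f m' := (f.continuous.tendsto m).eventually (lt_mem_nhds hm)
  filter_upwards [hev] with m' hm' hmem
  have hsub : convexHull ℝ ((insert m' K : Finset Pt) : Set Pt) ⊆ {b | u < f b} := by
    apply convexHull_min
    · intro y hy
      rw [Finset.mem_coe, Finset.mem_insert] at hy
      rcases hy with rfl | hy
      · exact hm'
      · exact hf y (subset_convexHull _ _ (by simp [hy]))
    · exact convex_halfSpace_gt f.isLinear u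
  have := hsub hmem
  exact absurd this (not_lt.2 hfx.le)

theorem exists_ext {k : ℕ} (hk : 2 ≤ k) (S H : Finset Pt) (hS : GenPos S)
    (hH : IsHole k S H) :
    ∃ m : Pt, m ∉ S ∧ GenPos (insert m S) ∧ IsHole (k+1) (insert m S) (insert m H) := by
  classical
  obtain ⟨hHS, hcard, hconv, hemp⟩ := hH
  have hne : H.Nonempty := by rw [← Finset.card_pos]; omega
  obtain ⟨p, hp⟩ := hne
  set K := H.erase p with hK
  have hKne : K.Nonempty := by
    rw [← Finset.card_pos, hK, Finset.card_erase_of_mem hp]; omega
  have hHK : insert p K = H := Finset.insert_erase hp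
  obtain ⟨f, u, hfp, hf⟩ := geometric_hahn_banach_point_closed (convex_convexHull ℝ _)
    (closed_hull K) (hconv p hp)
  -- a direction in the kernel
  obtain ⟨w, hw0, hfw⟩ : ∃ w : Pt, w ≠ 0 ∧ f w = 0 := by
    refine ⟨(-f (0, 1), f (1, 0)), ?_, ?_⟩
    · intro h0
      have h1 : f (0, 1) = 0 := by
        have := congrArg Prod.fst h0
        simpa using this
      have h2 : f (1, 0) = 0 := by
        have := congrArg Prod.snd h0
        simpa using this
      have hz : ∀ x : Pt, f x = 0 := by
        intro x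
        have : x = x.1 • ((1, 0) : Pt) + x.2 • ((0, 1) : Pt) := by ext <;> simp
        rw [this, map_add, map_smul, map_smul, h1, h2]; simp
      obtain ⟨y, hy⟩ := hKne
      have := hf y (subset_convexHull _ _ hy)
      rw [hz] at this hfp
      linarith
    · have : ((-f (0, 1), f (1, 0)) : Pt) =
          (-f (0, 1)) • ((1, 0) : Pt) + (f (1, 0)) • ((0, 1) : Pt) := by ext <;> simp
      rw [this, map_add, map_smul, map_smul]
      simp only [smul_eq_mul]; ring
  -- the conditions near `p`
  have ha : ∀ᶠ m in 𝓝 p, ∀ x ∈ K, x ∉ convexHull ℝ ((insert m (H.erase x) : Finset Pt) : Set Pt) := by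
    rw [Filter.eventually_all_finset]
    intro x hx
    apply eventually_notMem_hull
    have hxp : x ≠ p := Finset.ne_of_mem_erase hx
    have : insert p (H.erase x) = H.erase x :=
      Finset.insert_eq_of_mem (Finset.mem_erase.2 ⟨hxp.symm, hp⟩)
    rw [this]
    exact hconv x (Finset.mem_of_mem_erase hx)
  have hd : ∀ᶠ m in 𝓝 p, ∀ z ∈ S \ H, z ∉ convexHull ℝ ((insert m H : Finset Pt) : Set Pt) := by
    rw [Filter.eventually_all_finset]
    intro z hz
    rw [Finset.mem_sdiff] at hz
    apply eventually_notMem_hull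
    rw [Finset.insert_eq_of_mem hp]
    exact fun h => hz.2 (hemp z hz.1 h)
  obtain ⟨U, hU, hUo, hpU⟩ := eventually_nhds_iff.1 (ha.and hd)
  -- the point `m0`
  have hseg : Tendsto (fun t : ℝ => p + t • w) (𝓝[>] 0) (𝓝 p) := by
    have hc : Continuous (fun t : ℝ => p + t • w) := by fun_prop
    have := (hc.tendsto 0).mono_left (nhdsWithin_le_nhds (s := Set.Ioi 0))
    simpa using this
  obtain ⟨t, htU, ht⟩ := ((hseg.eventually (hUo.mem_nhds hpU)).and self_mem_nhdsWithin).exists
  have ht' : (0 : ℝ) < t := ht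
  set m0 := p + t • w with hm0
  have hfm0 : f m0 = f p := by rw [hm0, map_add, map_smul, hfw]; simp
  have hm0p : m0 ≠ p := by
    intro h
    have : t • w = 0 := by
      have h2 : p + t • w = p + 0 := by rw [← hm0, h, add_zero]
      exact add_left_cancel h2
    rcases smul_eq_zero.1 this with h3 | h3
    · exact ht'.ne' h3
    · exact hw0 h3
  -- a point of the hull of `a, K` with the value `f a` is `a`
  have key : ∀ a b : Pt, f a = f p → f b = f p → b ∈ convexHull ℝ ((insert a K : Finset Pt) : Set Pt) →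
      b = a := by
    intro a b hfa hfb hb
    rw [Finset.coe_insert, convexHull_insert (by exact_mod_cast hKne)] at hb
    simp only [convexJoin, Set.mem_iUnion, Set.mem_singleton_iff, exists_prop, exists_eq_left] at hb
    obtain ⟨y, hy, hseg⟩ := hb
    obtain ⟨α, β, hα, hβ, hαβ, rfl⟩ := hseg
    have hfy := hf y hy
    rw [map_add, map_smul, map_smul, hfa, smul_eq_mul, smul_eq_mul] at hfb
    have hβ0 : β = 0 := by
      by_contra hne
      have hβpos : 0 < β := lt_of_le_of_ne hβ (Ne.symm hne)
      have : α = 1 - β := by linarith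
      subst this
      have : β * (f y - f p) = 0 := by linarith
      rcases mul_eq_zero.1 this with h | h
      · exact hne h
      · linarith
    have hα1 : α = 1 := by linarith
    rw [hα1, hβ0]; simp
  have hb : p ∉ convexHull ℝ ((insert m0 K : Finset Pt) : Set Pt) :=
    fun h => hm0p (key m0 p hfm0 rfl h).symm
  have hc : m0 ∉ convexHull ℝ (H : Set Pt) := by
    intro h
    rw [← hHK] at h
    exact hm0p (key p m0 rfl hfm0 h)
  obtain ⟨V, hV, hVo, hmV⟩ := eventually_nhds_iff.1 ((eventually_notMem_hull hb).and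
    ((closed_hull H).isOpen_compl.mem_nhds hc))
  obtain ⟨m, hmO, hmS, hgen⟩ := exists_generic_insert S hS (U ∩ V) (hUo.inter hVo)
    ⟨m0, htU, hmV⟩
  obtain ⟨hma, hmd⟩ := hU m hmO.1
  obtain ⟨hmb, hmc⟩ := hV m hmO.2
  have hmH : m ∉ H := fun h => hmS (hHS h)
  refine ⟨m, hmS, hgen, Finset.insert_subset_insert _ hHS, ?_, ?_, ?_⟩
  · rw [Finset.card_insert_of_notMem hmH, hcard]
  · intro x hx
    rcases Finset.mem_insert.1 hx with rfl | hx
    · rw [Finset.erase_insert hmH]; exact hmc
    · have hmx : m ≠ x := by rintro rfl; exact hmH hx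
      rw [Finset.erase_insert_of_ne hmx]
      by_cases hxp : x = p
      · subst hxp; exact hmb
      · exact hma x (Finset.mem_erase.2 ⟨hxp, hx⟩)
  · intro x hx hxc
    rcases Finset.mem_insert.1 hx with rfl | hxS
    · exact Finset.mem_insert_self _ _
    · by_cases hxH : x ∈ H
      · exact Finset.mem_insert_of_mem hxH
      · exact absurd hxc (hmd x (Finset.mem_sdiff.2 ⟨hxS, hxH⟩))

end KHole
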