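import Pool.Agent.Helper89.Hole.TripodWin

/-!
The bound `s(k) ≤ 5` for `k ≥ 7`.
-/

namespace KHole

theorem sched_one' (a n : ℕ) : sched a 1 n = a := by
  unfold sched; simp [Nat.mod_one]

theorem speed_seven {k : ℕ} (hk : 7 ≤ k) : speed k ≤ 5 :=
  sInf_le ⟨5, 1, by norm_num, by norm_num, by norm_num, breakerWins_five hk (sched_one' 5)⟩

end KHole
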