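import Pool.Agent.Helper89.Hole.Defs

/-!
Definitions for Maker's strategy in the 5-hole game (problem MP_91a033_co).
-/

namespace KHole

/-- cross product of `b - a` and `c - a` (twice the signed area). -/
def det3 (a b c : Pt) : ℝ := (b.1 - a.1) * (c.2 - a.2) - (b.2 - a.2) * (c.1 - a.1)

theorem collinear_iff_det3 (a b c : Pt) : Collinear ℝ ({a, b, c} : Set Pt) ↔ det3 a b c = 0 := by
  rw [collinear_iff_of_mem (p₀ := a) (by simp)]
  constructor
  · rintro ⟨v, hv⟩
    obtain ⟨s, hs⟩ := hv b (by simp)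
    obtain ⟨t, ht⟩ := hv c (by simp)
    have hb1 : b.1 - a.1 = s * v.1 := by rw [hs]; simp
    have hb2 : b.2 - a.2 = s * v.2 := by rw [hs]; simp
    have hc1 : c.1 - a.1 = t * v.1 := by rw [ht]; simp
    have hc2 : c.2 - a.2 = t * v.2 := by rw [ht]; simp
    unfold det3
    rw [hb1, hb2, hc1, hc2]; ring
  · intro h
    unfold det3 at h
    by_cases hab : b = a
    · refine ⟨c - a, ?_⟩
      intro p hp
      simp only [Set.mem_insert_iff, Set.mem_singleton_iff] at hp
      rcases hp with rfl | rfl | rfl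
      · exact ⟨0, by simp⟩
      · exact ⟨0, by simp [hab]⟩
      · exact ⟨1, by simp⟩
    · refine ⟨b - a, ?_⟩
      intro p hp
      simp only [Set.mem_insert_iff, Set.mem_singleton_iff] at hp
      rcases hp with rfl | rfl | rfl
      · exact ⟨0, by simp⟩
      · exact ⟨1, by simp⟩
      · by_cases h1 : b.1 - a.1 = 0
        · have h2 : b.2 - a.2 ≠ 0 := by
            intro h2
            exact hab (Prod.ext (by linarith) (by linarith))
          have h3 : p.1 - a.1 = 0 := by
            rw [h1] at h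
            have : (b.2 - a.2) * (p.1 - a.1) = 0 := by linarith
            rcases mul_eq_zero.1 this with h | h
            · exact absurd h h2
            · exact h
          refine ⟨(p.2 - a.2) / (b.2 - a.2), ?_⟩
          ext
          · simp; rw [h1]; linarith
          · simp; field_simp; ring
        · refine ⟨(p.1 - a.1) / (b.1 - a.1), ?_⟩
          ext
          · simp; field_simp; ring
          · simp
            have : p.2 - a.2 = (p.1 - a.1) / (b.1 - a.1) * (b.2 - a.2) := by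
              field_simp; linarith
            linarith

/-- Maker can force, from the position `(M, B)` before round `n`, a position (after a reply of
Breaker, or the present one) that satisfies `P`. -/
inductive Reach (c : ℕ → ℕ) (P : ℕ → Finset Pt → Finset Pt → Prop) :
    ℕ → Finset Pt → Finset Pt → Prop
  | here (n : ℕ) (M B : Finset Pt) (h : P n M B) : Reach c P n M B
  | step (n : ℕ) (M B : Finset Pt) (m : Pt) (hm : MakerLegal M B m)
      (h : ∀ R : Finset Pt, BreakerLegal (c n) (insert m M) B R →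
        Reach c P (n + 1) (insert m M) (B ∪ R)) : Reach c P n M B

theorem Reach.trans {c : ℕ → ℕ} {P Q : ℕ → Finset Pt → Finset Pt → Prop} {n : ℕ}
    {M B : Finset Pt} (h : Reach c P n M B)
    (hPQ : ∀ n M B, P n M B → Reach c Q n M B) : Reach c Q n M B := by
  induction h with
  | here n M B h => exact hPQ n M B h
  | step n M B m hm h ih => exact Reach.step n M B m hm ih

theorem Reach.win {k : ℕ} {c : ℕ → ℕ} {P : ℕ → Finset Pt → Finset Pt → Prop} {n : ℕ}
    {M B : Finset Pt} (h : Reach c P n M B)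
    (hP : ∀ n M B, P n M B → MakerForces k c n M B) : MakerForces k c n M B := by
  induction h with
  | here n M B h => exact hP n M B h
  | step n M B m hm h ih => exact MakerForces.step n M B m hm ih

/-- A legitimate position (after Breaker's reply). -/
def OkPos (M B : Finset Pt) : Prop := Disjoint M B ∧ GenPos (M ∪ B)

/-- index set: `r` blocks of `g` elements -/
abbrev Idx (g r : ℕ) := Fin r × Fin g

/-- The real parameters of Maker's structure. -/
structure Par (g r : ℕ) where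
  u : Idx g r → ℝ
  α : Fin r → ℝ
  γ : Fin r → ℝ

/-- `A` avoids the block `j`. -/
def Free {g r : ℕ} (j : Fin r) (A : Finset (Idx g r)) : Prop := ∀ b ∈ A, b.1 ≠ j

namespace Par

variable {g r : ℕ} (p : Par g r)

/-- intercept attached to an index -/
def v (b : Idx g r) : ℝ := p.α b.1 - p.γ b.1 * p.u b

/-- slopes -/
noncomputable def U (A : Finset (Idx g r)) : ℝ := ∏ b ∈ A, p.u b

/-- intercepts -/
noncomputable def V (B : Finset (Idx g r)) : ℝ := ∑ b ∈ B, p.v b

/-- The point `z` is on the grid line `y = U(A) x + V(B)` with index `l = (A, B)`. -/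
def OnLine (l : Finset (Idx g r) × Finset (Idx g r)) (z : Pt) : Prop :=
  z.2 = p.U l.1 * z.1 + p.V l.2

/-- The candidate point `(j, A, B)`; it lies on the grid lines `(A ∪ {(j,i)}, B ∪ {(j,i)})`. -/
noncomputable def cand (j : Fin r) (A B : Finset (Idx g r)) : Pt :=
  (p.γ j / p.U A, p.α j + p.V B)

/-- Genericity of the parameters. -/
structure Generic : Prop where
  u_pos : ∀ b, 0 < p.u b
  γ_pos : ∀ j, 0 < p.γ j
  U_inj : Function.Injective p.U
  V_inj : Function.Injective p.V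
  xlevel : ∀ (j j' : Fin r) (A A' : Finset (Idx g r)), Free j A → Free j' A' →
    p.γ j / p.U A = p.γ j' / p.U A' → j = j' ∧ A = A'
  ylevel : ∀ (j j' : Fin r) (B B' : Finset (Idx g r)), Free j B → Free j' B' →
    p.α j + p.V B = p.α j' + p.V B' → j = j' ∧ B = B'
  conc : ∀ L : Finset (Finset (Idx g r) × Finset (Idx g r)),
    (∀ l ∈ L, ∀ l' ∈ L, l ≠ l' → l.1 ≠ l'.1 ∧ l.2 ≠ l'.2) →
    (∀ l₁ ∈ L, ∀ l₂ ∈ L, ∀ l₃ ∈ L, p.U l₁.1 * (p.V l₂.2 - p.V l₃.2) +
      p.U l₂.1 * (p.V l₃.2 - p.V l₁.2) + p.U l₃.1 * (p.V l₁.2 - p.V l₂.2) = 0) →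
    L.card ≤ g
  collin : ∀ μ ν : ℝ, μ ≠ 0 → (∀ A B, ¬ (μ = p.U A ∧ ν = p.V B)) →
    ∀ K : Finset (Fin r × Finset (Idx g r) × Finset (Idx g r)),
      (∀ κ ∈ K, Free κ.1 κ.2.1 ∧ Free κ.1 κ.2.2 ∧
        (p.cand κ.1 κ.2.1 κ.2.2).2 = μ * (p.cand κ.1 κ.2.1 κ.2.2).1 + ν) → K.card ≤ g

end Par

/-- Phase 1 is over: there are `e` grid lines with two points of Maker in the right half-plane. -/
def Phase1 {g r : ℕ} (p : Par g r) (e : ℕ) (_n : ℕ) (M B : Finset Pt) : Prop :=
  OkPos M B ∧ ∃ E : Finset (Finset (Idx g r) × Finset (Idx g r)), E.card = e ∧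
    ∀ l ∈ E, ∃ a ∈ M, ∃ b ∈ M, 0 < a.1 ∧ a.1 < b.1 ∧ p.OnLine l a ∧ p.OnLine l b

/-- Phase 2 is over: `t` thin triangles `m i, a i, b i` along parallel lines of slope `σ`, empty
also when prolonged to infinity in the direction `(1, σ)`. -/
def Phase2 (t : ℕ) (_n : ℕ) (M B : Finset Pt) : Prop :=
  OkPos M B ∧ ∃ (σ : ℝ) (c : Fin t → ℝ) (m a b : Fin t → Pt),
    (∀ i, m i ∈ M ∧ a i ∈ M ∧ b i ∈ M) ∧
    (∀ i, (a i).2 - σ * (a i).1 = c i ∧ (b i).2 - σ * (b i).1 = c i) ∧
    (∀ i, (m i).1 < (a i).1 ∧ (a i).1 < (b i).1) ∧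
    (∀ i, c i < (m i).2 - σ * (m i).1) ∧
    (∀ i j, i ≠ j → (m i).2 - σ * (m i).1 < c j ∨ (m j).2 - σ * (m j).1 < c i) ∧
    (∀ i, ∀ z ∈ M ∪ B, c i ≤ z.2 - σ * z.1 → z.2 - σ * z.1 ≤ (m i).2 - σ * (m i).1 →
      0 ≤ det3 (m i) (a i) z → z = m i ∨ z = a i ∨ z = b i)

/-- Phase 3 is over: there is a 4-hole of Maker's points. -/
def Phase3 (_n : ℕ) (M B : Finset Pt) : Prop := OkPos M B ∧ MakerHasHole 4 M B

end KHole
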