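import Pool.Agent.Helper89.Hole.Basic

/-!
Abstract game lemmas: strategies from invariants, Maker's forced wins exclude Breaker's winning
strategies, monotonicity in `k`.
-/

namespace KHole

open Classical in
/-- Breaker's reply chosen from an invariant. -/
noncomputable def rep (c : ℕ → ℕ) (P : List Pt → Finset Pt → Prop) (l : List Pt)
    (B : Finset Pt) (m : Pt) : Finset Pt :=
  if h : ∃ R, BreakerLegal (c l.length) (insert m l.toFinset) B R ∧ P (m :: l) (B ∪ R)
  then Classical.choose h else ∅

noncomputable def bld (c : ℕ → ℕ) (P : List Pt → Finset Pt → Prop) : List Pt → Finset Pt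
  | [] => ∅
  | m :: l => bld c P l ∪ rep c P l (bld c P l) m

noncomputable def strat (c : ℕ → ℕ) (P : List Pt → Finset Pt → Prop) : List Pt → Finset Pt
  | [] => ∅
  | m :: l => rep c P l (bld c P l) m

theorem brk_strat (c : ℕ → ℕ) (P : List Pt → Finset Pt → Prop) (l : List Pt) :
    brk (strat c P) l = bld c P l := by
  induction l with
  | nil => rfl
  | cons m l ih => simp only [brk, bld, ih, strat]

theorem breakerWins_of_inv {k : ℕ} {c : ℕ → ℕ} (P : List Pt → Finset Pt → Prop)
    (h0 : P [] ∅)
    (hstep : ∀ l B m, P l B → MakerLegal l.toFinset B m →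
      ∃ R, BreakerLegal (c l.length) (insert m l.toFinset) B R ∧ P (m :: l) (B ∪ R))
    (hsafe : ∀ l B m, P l B → MakerLegal l.toFinset B m →
      ¬ MakerHasHole k (insert m l.toFinset) B) : BreakerWins k c := by
  have key : ∀ l, LegalPlay (strat c P) l → P l (bld c P l) := by
    intro l
    induction l with
    | nil => intro _; exact h0
    | cons m l ih =>
      intro hl
      obtain ⟨h1, h2⟩ := hl
      rw [brk_strat] at h2
      have hex := hstep l _ m (ih h1) h2
      have := (Classical.choose_spec hex).2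
      simp only [bld, rep]
      rw [dif_pos hex]
      exact this
  refine ⟨strat c P, ?_⟩
  intro l m hl
  obtain ⟨h1, h2⟩ := hl
  rw [brk_strat] at h2 ⊢
  have hP := key l h1
  refine ⟨hsafe l _ m hP h2, ?_⟩
  have hex := hstep l _ m hP h2
  have := (Classical.choose_spec hex).1
  simp only [strat, rep]
  rw [dif_pos hex]
  exact this

theorem not_breakerWins_of_forces_aux {k : ℕ} {c : ℕ → ℕ} (σ : List Pt → Finset Pt)
    (hσ : ∀ (l : List Pt) (m : Pt), LegalPlay σ (m :: l) →
      ¬ MakerHasHole k (insert m l.toFinset) (brk σ l) ∧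
      BreakerLegal (c l.length) (insert m l.toFinset) (brk σ l) (σ (m :: l)))
    {n : ℕ} {M B : Finset Pt} (h : MakerForces k c n M B) :
    ∀ l : List Pt, LegalPlay σ l → l.toFinset = M → brk σ l = B → l.length = n → False := by
  induction h with
  | win n M B m hm hh =>
    intro l hl hM hB hn
    subst hM hB hn
    exact (hσ l m ⟨hl, hm⟩).1 hh
  | step n M B m hm hh ih =>
    intro l hl hM hB hn
    subst hM hB hn
    have h1 := hσ l m ⟨hl, hm⟩
    refine ih (σ (m :: l)) h1.2 (m :: l) ⟨hl, hm⟩ ?_ rfl rfl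
    simp

/-- If Maker has a winning strategy, then Breaker has none. -/
theorem not_breakerWins_of_makerWins {k : ℕ} {c : ℕ → ℕ} (h : MakerWins k c) :
    ¬ BreakerWins k c := by
  rintro ⟨σ, hσ⟩
  exact not_breakerWins_of_forces_aux σ hσ h [] trivial (by simp) rfl rfl

/-- Removing a vertex of a hole. -/
theorem IsHole.erase {k : ℕ} {S H : Finset Pt} (h : IsHole (k + 1) S H) {x : Pt} (hx : x ∈ H) :
    IsHole k S (H.erase x) := by
  obtain ⟨h1, h2, h3, h4⟩ := h
  refine ⟨(Finset.erase_subset _ _).trans h1, ?_, ?_, ?_⟩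
  · rw [Finset.card_erase_of_mem hx, h2]; rfl
  · intro y hy hmem
    apply h3 y (Finset.mem_of_mem_erase hy)
    refine convexHull_mono ?_ hmem
    intro z hz
    rw [Finset.mem_coe, Finset.mem_erase, Finset.mem_erase] at hz
    rw [Finset.mem_coe, Finset.mem_erase]
    exact ⟨hz.1, hz.2.2⟩
  · intro z hz hmem
    have hzH : z ∈ H := by
      apply h4 z hz
      exact convexHull_mono (by exact_mod_cast Finset.erase_subset _ _) hmem
    rw [Finset.mem_erase]
    refine ⟨?_, hzH⟩
    rintro rfl
    exact h3 z hzH hmem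

theorem exists_hole_pred {k : ℕ} {M B : Finset Pt} (h : MakerHasHole (k + 1) M B) :
    MakerHasHole k M B := by
  obtain ⟨H, hHM, hH⟩ := h
  have hne : H.Nonempty := by
    rw [← Finset.card_pos, hH.2.1]; omega
  obtain ⟨x, hx⟩ := hne
  exact ⟨H.erase x, (Finset.erase_subset _ _).trans hHM, hH.erase hx⟩

theorem hasHole_of_le {k k' : ℕ} (hk : k ≤ k') {M B : Finset Pt} (h : MakerHasHole k' M B) :
    MakerHasHole k M B := by
  induction k', hk using Nat.le_induction with
  | base => exact h
  | succ n _ ih => exact ih (exists_hole_pred h)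

theorem MakerForces.mono {k k' : ℕ} (hk : k ≤ k') {c : ℕ → ℕ} {n : ℕ} {M B : Finset Pt}
    (h : MakerForces k' c n M B) : MakerForces k c n M B := by
  induction h with
  | win n M B m hm hh => exact MakerForces.win n M B m hm (hasHole_of_le hk hh)
  | step n M B m hm hh ih => exact MakerForces.step n M B m hm ih

theorem BreakerWins.mono {k k' : ℕ} (hk : k ≤ k') {c : ℕ → ℕ} (h : BreakerWins k c) :
    BreakerWins k' c := by
  obtain ⟨σ, hσ⟩ := h
  refine ⟨σ, fun l m hl => ?_⟩
  exact ⟨fun hh => (hσ l m hl).1 (hasHole_of_le hk hh), (hσ l m hl).2⟩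

end KHole
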