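import Pool.Agent.Helper89.Hole.Vert

/-!
The tripod ring: three points in three directions that positively span the plane.
-/

namespace KHole

/-- the three directions -/
def td : Fin 3 → ℝ × ℝ := ![(1, 0), (-1, 1), (0, -1)]

/-- cross product of the direction `i` and `x - v` -/
def ta (i : Fin 3) (v x : Pt) : ℝ := (td i).1 * (x.2 - v.2) - (td i).2 * (x.1 - v.1)

theorem ta_zero (v x : Pt) : ta 0 v x = x.2 - v.2 := by simp [ta, td]
theorem ta_one (v x : Pt) : ta 1 v x = -(x.1 - v.1) - (x.2 - v.2) := by simp [ta, td]; ring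
theorem ta_two (v x : Pt) : ta 2 v x = x.1 - v.1 := by simp [ta, td]

theorem mem_of_cone {X : Set Pt} (hX : Convex ℝ X) {v a p q : Pt} (hv : v ∈ X) (ha : a ∈ X)
    (hp : p ∈ X) {σ : ℝ} (hD : 0 < σ * det3 v a p) (h1 : 0 ≤ σ * det3 v q p)
    (h2 : 0 ≤ σ * det3 v a q) (h3 : σ * det3 v q p + σ * det3 v a q ≤ σ * det3 v a p) :
    q ∈ X := by
  set D := σ * det3 v a p with hDd
  refine mem_of_comb3 hX hv ha hp (a := 1 - (σ * det3 v q p) / D - (σ * det3 v a q) / D)
    (b := (σ * det3 v q p) / D) (c := (σ * det3 v a q) / D) ?_ (div_nonneg h1 hD.le)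
    (div_nonneg h2 hD.le) (by ring) ?_ ?_
  · have : (σ * det3 v q p) / D + (σ * det3 v a q) / D ≤ 1 := by
      rw [← add_div, div_le_one hD]; exact h3
    linarith
  · field_simp
    rw [hDd]
    unfold det3
    ring
  · field_simp
    rw [hDd]
    unfold det3
    ring

/-- Core lemma: `a, b` early points in the sector `P ≥ 0 ≥ Q`, `p` with `P ≤ Q` on the positive
side of `a`; the ring point `q` with coordinates about `(ε, 0)` is in `X`. -/
theorem tripod_core {X : Set Pt} (hX : Convex ℝ X) {v a b p q : Pt} (hv : v ∈ X) (ha : a ∈ X)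
    (hb : b ∈ X) (hp : p ∈ X) {P Q : Pt → ℝ} {σ R κ κ₁ r₁ θ ε τ : ℝ}
    (hPQ : ∀ x y, P x * Q y - Q x * P y = σ * det3 v x y)
    (hP : ∀ x, |P x| ≤ 2 * dist x v) (hQ : ∀ x, |Q x| ≤ 2 * dist x v)
    (hσ : |σ| = 1)
    (hR : 1 ≤ R) (hκ : 0 < κ) (hκ₁ : 0 < κ₁) (hr₁ : 0 < r₁) (hθ : 0 < θ) (hε : 0 < ε)
    (hτ : 0 < τ)
    (hτ1 : τ ≤ 1 / 2) (hτ2 : τ ≤ κ₁ / (16 * R)) (hτ3 : τ ≤ θ / (4 * R))
    (hε1 : ε * (4 / κ₁ + 4 * R / (κ₁ * r₁)) ≤ 1) (hε2 : ε * (8 * R / κ) ≤ 1)
    (haR : dist a v ≤ R) (hbR : dist b v ≤ R)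
    (hPa : 0 ≤ P a) (hQa : Q a ≤ 0) (hPb : 0 ≤ P b) (hQb : Q b ≤ 0)
    (hQaθ : Q a ≠ 0 → θ ≤ |Q a|) (hQbθ : Q b ≠ 0 → θ ≤ |Q b|)
    (hκab : κ ≤ |det3 v a b|)
    (hpr : r₁ ≤ dist p v) (hpd : κ₁ * dist p v ≤ σ * det3 v a p) (hpP : P p ≤ Q p)
    (hqP : |P q - ε| ≤ ε * τ) (hqQ : |Q q| ≤ ε * τ) : q ∈ X := by
  have hRpos : 0 < R := by linarith
  set d := dist p v with hd
  have hdpos : 0 < d := lt_of_lt_of_le hr₁ hpr
  have hPa2 := abs_le.1 ((hP a).trans (by linarith : 2 * dist a v ≤ 2 * R))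
  have hQa2 := abs_le.1 ((hQ a).trans (by linarith : 2 * dist a v ≤ 2 * R))
  have hPb2 := abs_le.1 ((hP b).trans (by linarith : 2 * dist b v ≤ 2 * R))
  have hQb2 := abs_le.1 ((hQ b).trans (by linarith : 2 * dist b v ≤ 2 * R))
  have hPp2 := abs_le.1 (hP p)
  have hQp2 := abs_le.1 (hQ p)
  have hqP' := abs_le.1 hqP
  have hqQ' := abs_le.1 hqQ
  have hετ : 0 < ε * τ := mul_pos hε hτ
  have hετ1 : ε * τ ≤ ε / 2 := by nlinarith
  have hap := hPQ a p
  -- lower bound of Q p
  have hQp : κ₁ / (4 * R) * d ≤ Q p := by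
    have h1 : κ₁ * d ≤ (P a - Q a) * Q p := by
      have : -(Q a) * P p ≤ -(Q a) * Q p := mul_le_mul_of_nonneg_left hpP (by linarith)
      nlinarith
    have hQp0 : 0 < Q p := by
      by_contra hcon
      push Not at hcon
      have : (P a - Q a) * Q p ≤ 0 := mul_nonpos_of_nonneg_of_nonpos (by linarith) hcon
      have : 0 < κ₁ * d := by positivity
      linarith
    have h2 : (P a - Q a) * Q p ≤ 4 * R * Q p :=
      mul_le_mul_of_nonneg_right (by linarith [hPa2.2, hQa2.1]) hQp0.le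
    rw [div_mul_eq_mul_div, div_le_iff₀ (by positivity)]
    linarith
  have hτd : ε * τ * (2 * d) ≤ ε / 2 * (κ₁ / (4 * R) * d) := by
    have h1 : τ * 16 * R ≤ κ₁ := by
      rw [le_div_iff₀ (by positivity)] at hτ2; linarith
    have h2 : τ * 2 ≤ 1 / 2 * (κ₁ / (4 * R)) := by
      rw [mul_div_assoc', le_div_iff₀ (by positivity)]
      linarith
    calc ε * τ * (2 * d) = (τ * 2) * (ε * d) := by ring
      _ ≤ (1 / 2 * (κ₁ / (4 * R))) * (ε * d) := by gcongr
      _ = ε / 2 * (κ₁ / (4 * R) * d) := by ring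
  have hqp := hPQ q p
  have haq := hPQ a q
  have hqp0 : 0 ≤ σ * det3 v q p := by
    rw [← hqp]
    have h1 : ε / 2 * Q p ≤ P q * Q p := by
      apply mul_le_mul_of_nonneg_right _ _
      · linarith [hqP'.1]
      · refine le_trans ?_ hQp; positivity
    have h2 : Q q * P p ≤ ε * τ * (2 * d) := by
      calc Q q * P p ≤ |Q q * P p| := le_abs_self _
        _ = |Q q| * |P p| := abs_mul _ _
        _ ≤ ε * τ * (2 * d) := by gcongr; exact hP p
    have h3 : ε / 2 * (κ₁ / (4 * R) * d) ≤ ε / 2 * Q p := by gcongr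
    linarith
  have hqp1 : σ * det3 v q p ≤ ε * (4 * d) := by
    rw [← hqp]
    have h1 : P q * Q p ≤ (3 / 2 * ε) * (2 * d) := by
      calc P q * Q p ≤ |P q * Q p| := le_abs_self _
        _ = |P q| * |Q p| := abs_mul _ _
        _ ≤ (3 / 2 * ε) * (2 * d) := by
          gcongr
          · rw [abs_le]; constructor <;> linarith [hqP'.1, hqP'.2]
          · exact hQ p
    have h2 : -(Q q * P p) ≤ (ε / 2) * (2 * d) := by
      calc -(Q q * P p) ≤ |Q q * P p| := neg_le_abs _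
        _ = |Q q| * |P p| := abs_mul _ _
        _ ≤ (ε / 2) * (2 * d) := by
          gcongr
          · linarith
          · exact hP p
    linarith
  have haq1 : σ * det3 v a q ≤ ε * (4 * R) := by
    rw [← haq]
    have h1 : P a * Q q ≤ (2 * R) * (ε / 2) := by
      calc P a * Q q ≤ |P a * Q q| := le_abs_self _
        _ = |P a| * |Q q| := abs_mul _ _
        _ ≤ (2 * R) * (ε / 2) := by
          gcongr
          · rw [abs_le]; exact hPa2
          · linarith
    have h2 : -(Q a * P q) ≤ (2 * R) * (3 / 2 * ε) := by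
      calc -(Q a * P q) ≤ |Q a * P q| := neg_le_abs _
        _ = |Q a| * |P q| := abs_mul _ _
        _ ≤ (2 * R) * (3 / 2 * ε) := by
          gcongr
          · rw [abs_le]; exact hQa2
          · rw [abs_le]; constructor <;> linarith [hqP'.1, hqP'.2]
    linarith
  rcases le_or_gt 0 (σ * det3 v a q) with hcase | hcase
  · refine mem_of_cone hX hv ha hp (σ := σ) (lt_of_lt_of_le (by positivity) hpd) hqp0 hcase ?_
    refine le_trans (add_le_add hqp1 haq1) (le_trans ?_ hpd)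
    have h1 : ε * (4 * d) ≤ ε * (4 / κ₁) * (κ₁ * d) := by
      apply le_of_eq; field_simp
    have h2 : ε * (4 * R) ≤ ε * (4 * R / (κ₁ * r₁)) * (κ₁ * d) := by
      have : ε * (4 * R) = ε * (4 * R / (κ₁ * r₁)) * (κ₁ * r₁) := by field_simp
      rw [this]
      gcongr
    calc ε * (4 * d) + ε * (4 * R) ≤ ε * (4 / κ₁ + 4 * R / (κ₁ * r₁)) * (κ₁ * d) := by
          rw [mul_add, add_mul]; exact add_le_add h1 h2
      _ ≤ 1 * (κ₁ * d) := by gcongr
      _ = κ₁ * d := one_mul _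
  · -- then `Q a = 0`
    have hτR : τ * (4 * R) ≤ θ := by
      rw [le_div_iff₀ (by positivity)] at hτ3; linarith
    have low : ∀ x, 0 ≤ P x → P x ≤ 2 * R → Q x ≤ 0 → θ ≤ |Q x| → 0 ≤ P x * Q q - Q x * P q := by
      intro x h0 h1 h2 h3
      rw [abs_of_nonpos h2] at h3
      have e1 : -(2 * R * (ε * τ)) ≤ P x * Q q := by
        have : |P x * Q q| ≤ 2 * R * (ε * τ) := by
          rw [abs_mul, abs_of_nonneg h0]; gcongr
        linarith [(abs_le.1 this).1]
      have e2 : θ * (ε / 2) ≤ -Q x * P q := by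
        apply mul_le_mul h3 _ (by positivity) (by linarith)
        linarith [hqP'.1]
      nlinarith
    have hQa0 : Q a = 0 := by
      by_contra hne
      have := low a hPa hPa2.2 hQa (hQaθ hne)
      rw [haq] at this
      linarith
    have hab := hPQ a b
    have hba := hPQ b a
    have hab' : |P a * Q b - Q a * P b| = |det3 v a b| := by
      rw [hab, abs_mul, hσ, one_mul]
    have hQb0 : Q b ≠ 0 := by
      intro h0
      rw [hQa0, h0] at hab'
      simp only [mul_zero, zero_mul, sub_zero, abs_zero] at hab'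
      rw [← hab'] at hκab
      linarith
    have hbq := hPQ b q
    have hbq0 : 0 ≤ σ * det3 v b q := by
      rw [← hbq]; exact low b hPb hPb2.2 hQb (hQbθ hQb0)
    have hqa : σ * det3 v q a = - (σ * det3 v a q) := by
      rw [det3_swap' v a q]; ring
    have hbaD : κ ≤ σ * det3 v b a := by
      rw [← hba, hQa0]
      have h1 : |P a * Q b - Q a * P b| = P b * 0 - Q b * P a := by
        rw [hQa0, zero_mul, sub_zero, abs_of_nonpos (mul_nonpos_of_nonneg_of_nonpos hPa hQb)]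
        ring
      rw [← h1, hab']
      exact hκab
    have hbq1 : σ * det3 v b q ≤ ε * (4 * R) := by
      rw [← hbq]
      have h1 : P b * Q q ≤ (2 * R) * (ε / 2) := by
        calc P b * Q q ≤ |P b * Q q| := le_abs_self _
          _ = |P b| * |Q q| := abs_mul _ _
          _ ≤ (2 * R) * (ε / 2) := by
            gcongr
            · rw [abs_le]; exact hPb2
            · linarith
      have h2 : -(Q b * P q) ≤ (2 * R) * (3 / 2 * ε) := by
        calc -(Q b * P q) ≤ |Q b * P q| := neg_le_abs _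
          _ = |Q b| * |P q| := abs_mul _ _
          _ ≤ (2 * R) * (3 / 2 * ε) := by
            gcongr
            · rw [abs_le]; exact hQb2
            · rw [abs_le]; constructor <;> linarith [hqP'.1, hqP'.2]
      linarith
    have hqa1 : σ * det3 v q a ≤ ε * (4 * R) := by
      rw [hqa, ← haq, hQa0]
      have : |P a * Q q| ≤ (2 * R) * (ε / 2) := by
        rw [abs_mul]
        gcongr
        · rw [abs_le]; exact hPa2
        · linarith
      nlinarith [(abs_le.1 this).1]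
    refine mem_of_cone hX hv hb ha (σ := σ) (lt_of_lt_of_le hκ hbaD) (by rw [hqa]; linarith)
      hbq0 ?_
    refine le_trans (add_le_add hqa1 hbq1) (le_trans ?_ hbaD)
    calc ε * (4 * R) + ε * (4 * R) = ε * (8 * R / κ) * κ := by field_simp; ring
      _ ≤ 1 * κ := by gcongr
      _ = κ := one_mul _

/-- Sector lemma: two vectors with no direction of the tripod strictly between them lie in a
common sector. -/
theorem sector_aux {x1 y1 x2 y2 : ℝ} (hD : 0 < x1 * y2 - y1 * x2)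
    (c0 : ¬ (y1 < 0 ∧ 0 < y2)) (c1 : ¬ (-x1 - y1 < 0 ∧ 0 < -x2 - y2)) (c2 : ¬ (x1 < 0 ∧ 0 < x2)) :
    (0 ≤ y1 ∧ -x1 - y1 ≤ 0 ∧ 0 ≤ y2 ∧ -x2 - y2 ≤ 0) ∨
    (0 ≤ -x1 - y1 ∧ x1 ≤ 0 ∧ 0 ≤ -x2 - y2 ∧ x2 ≤ 0) ∨
    (0 ≤ x1 ∧ y1 ≤ 0 ∧ 0 ≤ x2 ∧ y2 ≤ 0) := by
  rcases lt_trichotomy y1 0 with hy1 | hy1 | hy1
  · have hy2 : y2 ≤ 0 := by by_contra h; exact c0 ⟨hy1, not_le.1 h⟩
    rcases lt_trichotomy x1 0 with hx1 | hx1 | hx1
    · have hx2 : x2 ≤ 0 := by by_contra h; exact c2 ⟨hx1, not_le.1 h⟩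
      right; left; exact ⟨by linarith, hx1.le, by linarith, hx2⟩
    · subst hx1
      rcases le_or_gt x2 0 with hx2 | hx2
      · right; left; exact ⟨by linarith, le_rfl, by linarith, hx2⟩
      · right; right; exact ⟨le_rfl, hy1.le, hx2.le, hy2⟩
    · -- u strictly in sector 2
      rcases le_or_gt 0 x2 with hx2 | hx2
      · right; right; exact ⟨hx1.le, hy1.le, hx2, hy2⟩
      · exfalso
        nlinarith [mul_pos hx1 (neg_pos.2 hy1), mul_nonneg hx1.le (neg_nonneg.2 hy2),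
          mul_pos (neg_pos.2 hy1) (neg_pos.2 hx2)]
  · subst hy1
    have hxy : 0 < x1 * y2 := by linarith
    rcases lt_trichotomy x1 0 with hx1 | hx1 | hx1
    · have hx2 : x2 ≤ 0 := by by_contra h; exact c2 ⟨hx1, not_le.1 h⟩
      have hy2 : y2 < 0 := by
        by_contra h; push Not at h; nlinarith
      right; left; exact ⟨by linarith, hx1.le, by linarith, hx2⟩
    · subst hx1; linarith
    · have hy2 : 0 < y2 := by
        by_contra h; push Not at h; nlinarith
      have h1 : -x2 - y2 ≤ 0 := by by_contra h; exact c1 ⟨by linarith, not_le.1 h⟩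
      left; exact ⟨le_rfl, by linarith, hy2.le, h1⟩
  · rcases lt_or_ge 0 (x1 + y1) with hs | hs
    · have h1 : -x2 - y2 ≤ 0 := by by_contra h; exact c1 ⟨by linarith, not_le.1 h⟩
      rcases le_or_gt 0 y2 with hy2 | hy2
      · left; exact ⟨hy1.le, by linarith, hy2, h1⟩
      · exfalso
        have hx2 : 0 < x2 := by linarith
        have hx1 : 0 ≤ x1 := by by_contra h; exact c2 ⟨not_le.1 h, hx2⟩
        nlinarith [mul_nonneg hx1 (neg_nonneg.2 hy2.le), mul_pos hy1 hx2]
    · have hx1 : x1 < 0 := by linarith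
      have hx2 : x2 ≤ 0 := by by_contra h; exact c2 ⟨hx1, not_le.1 h⟩
      rcases le_or_gt (x2 + y2) 0 with h2 | h2
      · right; left; exact ⟨by linarith, hx1.le, by linarith, hx2⟩
      · exfalso
        have hy2 : 0 < y2 := by linarith
        nlinarith [mul_pos (neg_pos.2 hx1) h2, mul_nonneg (neg_nonneg.2 hx2) (neg_nonneg.2 hs)]

end KHole
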