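import Pool.Agent.Helper89.Hole.Tripod

/-!
The tripod ring system, and Breaker's win with five points per round for `k ≥ 7`.
-/

namespace KHole

/-- If the two early points `u, w` lie in the closed sector `P ≥ 0 ≥ Q` and the two ring points
are not in `X`, then all the relevant points of `X` satisfy `Q < P`. -/
theorem sector_final {X : Set Pt} (hX : Convex ℝ X) {E : Finset Pt} {v u w q₁ q₂ : Pt}
    {P Q : Pt → ℝ} {r R κ r₁ θ ε τ : ℝ} (hvX : v ∈ X)
    (hPQ : ∀ x y, P x * Q y - Q x * P y = det3 v x y)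
    (hP : ∀ x, |P x| ≤ 2 * dist x v) (hQ : ∀ x, |Q x| ≤ 2 * dist x v)
    (hR : 1 ≤ R) (hκ : 0 < κ) (hr₁ : 0 < r₁) (hr₁r : r₁ ≤ r) (hθ : 0 < θ) (hε : 0 < ε)
    (hτ : 0 < τ) (hτ1 : τ ≤ 1 / 2) (hτ2 : τ ≤ κ / (2 * R) / (16 * R)) (hτ3 : τ ≤ θ / (4 * R))
    (hε1 : ε * (4 / (κ / (2 * R)) + 4 * R / (κ / (2 * R) * r₁)) ≤ 1)
    (hε2 : ε * (8 * R / κ) ≤ 1)
    (hER : ∀ u ∈ E, dist u v ≤ R) (hEr : ∀ u ∈ E, r₁ ≤ dist u v)
    (hEκ : ∀ u ∈ E, ∀ w ∈ E, u ≠ w → κ ≤ |det3 v u w|)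
    (hPθ : ∀ u ∈ E, P u ≠ 0 → θ ≤ |P u|) (hQθ : ∀ u ∈ E, Q u ≠ 0 → θ ≤ |Q u|)
    (huE : u ∈ E) (huX : u ∈ X) (hwE : w ∈ E) (hwX : w ∈ X) (huw : u ≠ w)
    (hPu : 0 ≤ P u) (hQu : Q u ≤ 0) (hPw : 0 ≤ P w) (hQw : Q w ≤ 0)
    (hq₁ : q₁ ∉ X) (hq₂ : q₂ ∉ X)
    (hq₁P : |P q₁ - ε| ≤ ε * τ) (hq₁Q : |Q q₁| ≤ ε * τ)
    (hq₂Q : |Q q₂ + ε| ≤ ε * τ) (hq₂P : |P q₂| ≤ ε * τ) :
    ∀ p ∈ X, (p ∈ E ∨ r < dist p v) → Q p < P p := by
  intro p hpX hpE
  by_contra hcon
  push Not at hcon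
  have hRpos : 0 < R := by linarith
  have hpr : r₁ ≤ dist p v := by
    rcases hpE with h | h
    · exact hEr p h
    · linarith
  have key : ∀ a ∈ E, a ∈ X → ∀ b ∈ E, b ∈ X → a ≠ b → 0 ≤ P a → Q a ≤ 0 → 0 ≤ P b → Q b ≤ 0 →
      κ / (2 * R) * dist p v ≤ |det3 v a p| → False := by
    intro a haE haX b hbE hbX hab hPa hQa hPb hQb hd
    rcases le_or_gt 0 (det3 v a p) with h | h
    · rw [abs_of_nonneg h] at hd
      exact hq₁ (tripod_core hX hvX haX hbX hpX (P := P) (Q := Q) (σ := 1)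
        (by intro x y; rw [hPQ, one_mul]) hP hQ abs_one hR hκ (by positivity) hr₁ hθ hε hτ hτ1
        hτ2 hτ3 hε1 hε2 (hER a haE) (hER b hbE) hPa hQa hPb hQb (hQθ a haE) (hQθ b hbE)
        (hEκ a haE b hbE hab) hpr (by rw [one_mul]; exact hd) hcon hq₁P hq₁Q)
    · rw [abs_of_neg h] at hd
      exact hq₂ (tripod_core hX hvX haX hbX hpX (P := fun x => - Q x) (Q := fun x => - P x)
        (σ := -1)
        (by intro x y; have := hPQ x y; linarith) (by simpa using hQ) (by simpa using hP)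
        (by simp) hR hκ (by positivity) hr₁ hθ hε hτ hτ1
        hτ2 hτ3 hε1 hε2 (hER a haE) (hER b hbE) (by simpa using hQa) (by simpa using hPa)
        (by simpa using hQb) (by simpa using hPb)
        (by simpa using hPθ a haE) (by simpa using hPθ b hbE)
        (hEκ a haE b hbE hab) hpr (by linarith) (by linarith)
        (by
          have : -Q q₂ - ε = -(Q q₂ + ε) := by ring
          rw [this, abs_neg]; exact hq₂Q)
        (by rw [abs_neg]; exact hq₂P))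
  rcases exists_good hR hκ hER hEκ (p := p) huE hwE huw with h | h
  · exact key u huE huX w hwE hwX huw hPu hQu hPw hQw h
  · exact key w hwE hwX u huE huX huw.symm hPw hQw hPu hQu h

theorem ta_abs_le (i : Fin 3) (v x : Pt) : |ta i v x| ≤ 2 * dist x v := by
  have h1 := abs_le.1 (abs_fst_le_dist x v)
  have h2 := abs_le.1 (abs_snd_le_dist x v)
  rw [abs_le]
  fin_cases i
  · simp only [Fin.zero_eta, ta_zero]; constructor <;> linarith [dist_nonneg (x := x) (y := v)]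
  · simp only [Fin.mk_one, ta_one]; constructor <;> linarith
  · simp only [Fin.reduceFinMk, ta_two]; constructor <;> linarith [dist_nonneg (x := x) (y := v)]

/-- the box around the `i`-th ring point -/
def tbox (v : Pt) (ε τ : ℝ) (i : Fin 3) : Set Pt :=
  {q | |q.1 - v.1 - ε * (td i).1| < ε * τ ∧ |q.2 - v.2 - ε * (td i).2| < ε * τ}

theorem tbox_isOpen (v : Pt) (ε τ : ℝ) (i : Fin 3) : IsOpen (tbox v ε τ i) := by
  have h1 : Continuous (fun q : Pt => |q.1 - v.1 - ε * (td i).1|) := by fun_prop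
  have h2 : Continuous (fun q : Pt => |q.2 - v.2 - ε * (td i).2|) := by fun_prop
  exact (isOpen_lt h1 continuous_const).inter (isOpen_lt h2 continuous_const)

theorem tbox_nonempty (v : Pt) {ε τ : ℝ} (hε : 0 < ε) (hτ : 0 < τ) (i : Fin 3) :
    (tbox v ε τ i).Nonempty := by
  refine ⟨(v.1 + ε * (td i).1, v.2 + ε * (td i).2), ?_, ?_⟩
  · simp only [add_sub_cancel_left, sub_self, abs_zero]; positivity
  · simp only [add_sub_cancel_left, sub_self, abs_zero]; positivity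

/-- the ring point in the `i`-th direction, strictly inside the cone of `u, w` -/
theorem tri_inside {X : Set Pt} (hX : Convex ℝ X) {v u w q : Pt} {i : Fin 3}
    {R κ θ ε τ : ℝ} (hvX : v ∈ X) (huX : u ∈ X) (hwX : w ∈ X) (hR : 1 ≤ R) (hκ : 0 < κ)
    (hε : 0 < ε) (hτ : 0 < τ) (hτ1 : τ ≤ 1) (hτ3 : τ * (2 * R) ≤ θ)
    (hε2 : ε * (8 * R / κ) ≤ 1) (huR : dist u v ≤ R) (hwR : dist w v ≤ R)
    (hκuw : κ ≤ det3 v u w) (hu : ta i v u < 0) (hw : 0 < ta i v w)
    (huθ : θ ≤ |ta i v u|) (hwθ : θ ≤ |ta i v w|) (hq : q ∈ tbox v ε τ i) : q ∈ X := by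
  have hRpos : 0 < R := by linarith
  obtain ⟨hq1, hq2⟩ := hq
  have u1 := (abs_fst_le_dist u v).trans huR
  have u2 := (abs_snd_le_dist u v).trans huR
  have w1 := (abs_fst_le_dist w v).trans hwR
  have w2 := (abs_snd_le_dist w v).trans hwR
  have hta_u := abs_le.1 ((ta_abs_le i v u).trans (by linarith : 2 * dist u v ≤ 2 * R))
  have hta_w := abs_le.1 ((ta_abs_le i v w).trans (by linarith : 2 * dist w v ≤ 2 * R))
  rw [abs_of_neg hu] at huθ
  rw [abs_of_pos hw] at hwθ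
  -- errors
  have hb : ∀ x : Pt, |x.1 - v.1| ≤ R → |x.2 - v.2| ≤ R →
      |(q.1 - v.1 - ε * (td i).1) * (x.2 - v.2) - (q.2 - v.2 - ε * (td i).2) * (x.1 - v.1)| ≤
        ε * (τ * (2 * R)) := by
    intro x h1 h2
    refine (abs_sub _ _).trans ?_
    rw [abs_mul, abs_mul]
    calc _ ≤ ε * τ * R + ε * τ * R := by gcongr
      _ = ε * (τ * (2 * R)) := by ring
  have e1 : det3 v q w = ε * ta i v w +
      ((q.1 - v.1 - ε * (td i).1) * (w.2 - v.2) - (q.2 - v.2 - ε * (td i).2) * (w.1 - v.1)) := by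
    unfold det3 ta; ring
  have e2 : det3 v u q = - (ε * ta i v u) -
      ((q.1 - v.1 - ε * (td i).1) * (u.2 - v.2) - (q.2 - v.2 - ε * (td i).2) * (u.1 - v.1)) := by
    unfold det3 ta; ring
  have b1 := abs_le.1 (hb w w1 w2)
  have b2 := abs_le.1 (hb u u1 u2)
  have hετ : ε * (τ * (2 * R)) ≤ ε * θ := by gcongr
  have hετ' : ε * (τ * (2 * R)) ≤ ε * (2 * R) := by
    have : τ * (2 * R) ≤ 2 * R := by nlinarith
    exact mul_le_mul_of_nonneg_left this hε.le
  have f1 : ε * θ ≤ ε * ta i v w := by gcongr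
  have f2 : ε * θ ≤ - (ε * ta i v u) := by
    rw [← mul_neg]; gcongr
  have f3 : ε * ta i v w ≤ ε * (2 * R) := by gcongr; exact hta_w.2
  have f4 : - (ε * ta i v u) ≤ ε * (2 * R) := by
    rw [← mul_neg]; gcongr; linarith [hta_u.1]
  refine mem_of_cone hX hvX huX hwX (σ := 1) (by linarith) ?_ ?_ ?_
  · rw [one_mul, e1]; linarith [b1.1]
  · rw [one_mul, e2]; linarith [b2.2]
  · rw [one_mul, one_mul, one_mul]
    refine le_trans ?_ hκuw
    have : ε * (8 * R) ≤ κ := by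
      calc ε * (8 * R) = ε * (8 * R / κ) * κ := by field_simp
        _ ≤ 1 * κ := by gcongr
        _ = κ := one_mul _
    rw [e1, e2]
    have g1 := b1.2
    have g2 := b2.1
    nlinarith

/-- the three linear functionals -/
def triφ : Fin 3 → Pt → ℝ :=
  ![fun p => p.1 + 2 * p.2, fun p => -2 * p.1 - p.2, fun p => p.1 - p.2]

theorem tri_ringSystem : RingSystem 3 3 triφ := by
  intro E v r hv hg hr
  obtain ⟨R, κ, x₀, r₁, hR, hκ, hx₀, hr₁, hr₁r, hER, hEr, hEx, hEκ⟩ :=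
    exists_consts E v r hv hg hr
  have hRpos : 0 < R := by linarith
  obtain ⟨θ, hθ, hEθ⟩ := exists_pos_le ((E ×ˢ (Finset.univ : Finset (Fin 3))).filter
    (fun q => ta q.2 v q.1 ≠ 0)) (fun q => |ta q.2 v q.1|) (by
      intro q hq
      rw [Finset.mem_filter] at hq
      exact abs_pos.2 hq.2)
  have hθ' : ∀ i : Fin 3, ∀ u ∈ E, ta i v u ≠ 0 → θ ≤ |ta i v u| := by
    intro i u hu hne
    exact hEθ (u, i) (Finset.mem_filter.2 ⟨Finset.mem_product.2 ⟨hu, Finset.mem_univ _⟩, hne⟩)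
  set τ : ℝ := min (1 / 2) (min (κ / (2 * R) / (16 * R)) (θ / (4 * R))) with hτdef
  have hτ : 0 < τ := by
    refine lt_min (by norm_num) (lt_min ?_ ?_) <;> positivity
  have hτ1 : τ ≤ 1 / 2 := min_le_left _ _
  have hτ2 : τ ≤ κ / (2 * R) / (16 * R) := (min_le_right _ _).trans (min_le_left _ _)
  have hτ3 : τ ≤ θ / (4 * R) := (min_le_right _ _).trans (min_le_right _ _)
  set ε : ℝ := min (1 / (4 / (κ / (2 * R)) + 4 * R / (κ / (2 * R) * r₁))) (1 / (8 * R / κ))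
    with hεdef
  have hε : 0 < ε := by
    refine lt_min ?_ ?_ <;> positivity
  have hε1 : ε * (4 / (κ / (2 * R)) + 4 * R / (κ / (2 * R) * r₁)) ≤ 1 := by
    rw [← le_div_iff₀ (by positivity)]
    exact min_le_left _ _
  have hε2 : ε * (8 * R / κ) ≤ 1 := by
    rw [← le_div_iff₀ (by positivity)]
    exact min_le_right _ _
  refine ⟨fun i => tbox v ε (τ / 2) i, fun i => ⟨tbox_isOpen _ _ _ _,
    tbox_nonempty v hε (by positivity) i⟩, ?_⟩
  intro q hq X hX hvX u hu huX w hw hwX huw hqX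
  -- the coordinates of the ring points
  have q0 := hq 0
  have q1 := hq 1
  have q2 := hq 2
  simp only [tbox, td, Set.mem_ofPred_eq, Matrix.cons_val_zero, Matrix.cons_val_one,
    Matrix.cons_val, mul_one, mul_zero, sub_zero, mul_neg, sub_neg_eq_add] at q0 q1 q2
  obtain ⟨⟨a1, a2⟩, a3, a4⟩ := And.imp abs_lt.1 abs_lt.1 q0
  obtain ⟨⟨b1, b2⟩, b3, b4⟩ := And.imp abs_lt.1 abs_lt.1 q1
  obtain ⟨⟨c1, c2⟩, c3, c4⟩ := And.imp abs_lt.1 abs_lt.1 q2
  have hετ : ε * (τ / 2) = ε * τ / 2 := by ring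
  rw [hετ] at a1 a2 a3 a4 b1 b2 b3 b4 c1 c2 c3 c4
  have hετpos : 0 < ε * τ := by positivity
  -- common sector
  have hstrict : ∀ u' ∈ E, u' ∈ X → ∀ w' ∈ E, w' ∈ X → u' ≠ w' → 0 < det3 v u' w' →
      ∀ i : Fin 3, ¬ (ta i v u' < 0 ∧ 0 < ta i v w') := by
    rintro u' hu' huX' w' hw' hwX' hne hD i ⟨h1, h2⟩
    refine hqX i (tri_inside hX (θ := θ) (κ := κ) hvX huX' hwX' hR hκ hε (half_pos hτ)
      (by linarith) ?_ hε2 (hER u' hu') (hER w' hw') ?_ h1 h2 (hθ' i u' hu' h1.ne)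
      (hθ' i w' hw' h2.ne') (hq i))
    · have : τ * (4 * R) ≤ θ := by rwa [le_div_iff₀ (by positivity)] at hτ3
      nlinarith
    · have := hEκ u' hu' w' hw' hne
      rwa [abs_of_pos hD] at this
  have hsector : ∀ u' ∈ E, u' ∈ X → ∀ w' ∈ E, w' ∈ X → u' ≠ w' → 0 < det3 v u' w' →
      ∃ j, ∀ p ∈ X, p ≠ v → (p ∈ E ∨ r < dist p v) → triφ j v < triφ j p := by
    intro u' hu' huX' w' hw' hwX' hne hD
    have hs := hstrict u' hu' huX' w' hw' hwX' hne hD
    have s0 := hs 0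
    have s1 := hs 1
    have s2 := hs 2
    rw [ta_zero, ta_zero] at s0
    rw [ta_one, ta_one] at s1
    rw [ta_two, ta_two] at s2
    have hD' : 0 < (u'.1 - v.1) * (w'.2 - v.2) - (u'.2 - v.2) * (w'.1 - v.1) := by
      have : det3 v u' w' = (u'.1 - v.1) * (w'.2 - v.2) - (u'.2 - v.2) * (w'.1 - v.1) := by
        unfold det3; ring
      rwa [this] at hD
    rcases sector_aux hD' s0 s1 s2 with ⟨h1, h2, h3, h4⟩ | ⟨h1, h2, h3, h4⟩ | ⟨h1, h2, h3, h4⟩
    · refine ⟨0, fun p hp hpv hpE => ?_⟩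
      have := sector_final hX (q₁ := q 1) (q₂ := q 0) (P := ta 0 v) (Q := ta 1 v) (θ := θ)
        hvX (by intro x y; simp only [ta_zero, ta_one, det3]; ring) (ta_abs_le 0 v)
        (ta_abs_le 1 v) hR hκ hr₁ hr₁r hθ hε hτ hτ1 hτ2 hτ3 hε1 hε2 hER hEr hEκ (hθ' 0) (hθ' 1)
        hu' huX' hw' hwX' hne (by rwa [ta_zero]) (by rwa [ta_one]) (by rwa [ta_zero])
        (by rwa [ta_one]) (hqX 1) (hqX 0)
        (by rw [ta_zero, abs_le]; constructor <;> linarith)
        (by rw [ta_one, abs_le]; constructor <;> linarith)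
        (by rw [ta_one, abs_le]; constructor <;> linarith)
        (by rw [ta_zero, abs_le]; constructor <;> linarith) p hp hpE
      rw [ta_zero, ta_one] at this
      simp only [triφ, Matrix.cons_val_zero]
      linarith
    · refine ⟨1, fun p hp hpv hpE => ?_⟩
      have := sector_final hX (q₁ := q 2) (q₂ := q 1) (P := ta 1 v) (Q := ta 2 v) (θ := θ)
        hvX (by intro x y; simp only [ta_two, ta_one, det3]; ring) (ta_abs_le 1 v)
        (ta_abs_le 2 v) hR hκ hr₁ hr₁r hθ hε hτ hτ1 hτ2 hτ3 hε1 hε2 hER hEr hEκ (hθ' 1) (hθ' 2)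
        hu' huX' hw' hwX' hne (by rwa [ta_one]) (by rwa [ta_two]) (by rwa [ta_one])
        (by rwa [ta_two]) (hqX 2) (hqX 1)
        (by rw [ta_one, abs_le]; constructor <;> linarith)
        (by rw [ta_two, abs_le]; constructor <;> linarith)
        (by rw [ta_two, abs_le]; constructor <;> linarith)
        (by rw [ta_one, abs_le]; constructor <;> linarith) p hp hpE
      rw [ta_two, ta_one] at this
      simp only [triφ, Matrix.cons_val_one, Matrix.cons_val_zero]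
      linarith
    · refine ⟨2, fun p hp hpv hpE => ?_⟩
      have := sector_final hX (q₁ := q 0) (q₂ := q 2) (P := ta 2 v) (Q := ta 0 v) (θ := θ)
        hvX (by intro x y; simp only [ta_two, ta_zero, det3]) (ta_abs_le 2 v)
        (ta_abs_le 0 v) hR hκ hr₁ hr₁r hθ hε hτ hτ1 hτ2 hτ3 hε1 hε2 hER hEr hEκ (hθ' 2) (hθ' 0)
        hu' huX' hw' hwX' hne (by rwa [ta_two]) (by rwa [ta_zero]) (by rwa [ta_two])
        (by rwa [ta_zero]) (hqX 0) (hqX 2)
        (by rw [ta_two, abs_le]; constructor <;> linarith)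
        (by rw [ta_zero, abs_le]; constructor <;> linarith)
        (by rw [ta_zero, abs_le]; constructor <;> linarith)
        (by rw [ta_two, abs_le]; constructor <;> linarith) p hp hpE
      rw [ta_two, ta_zero] at this
      simp only [triφ, Matrix.cons_val]
      linarith
  rcases lt_or_ge 0 (det3 v u w) with h | h
  · exact hsector u hu huX w hw hwX huw h
  · have hne : det3 v u w ≠ 0 := by
      intro h0
      have := hEκ u hu w hw huw
      rw [h0, abs_zero] at this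
      linarith
    have hlt : det3 v u w < 0 := lt_of_le_of_ne h hne
    exact hsector w hw hwX u hu huX huw.symm (by rw [det3_swap' v u w]; linarith)

/-- Breaker wins the `k`-hole game for `k ≥ 7` with 5 points per round. -/
theorem breakerWins_five {k : ℕ} (hk : 7 ≤ k) {c : ℕ → ℕ} (hc : ∀ n, c n = 5) :
    BreakerWins k c :=
  breakerWins_of_ring tri_ringSystem (by omega) (by simpa using hc)

end KHole
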