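import Pool.Agent.Helper89.Hole.BreakerInv

/-!
The vertical ring: four points next to the vertical line through `v`.
-/

namespace KHole

theorem exists_pos_le {α : Type*} (s : Finset α) (f : α → ℝ) (h : ∀ x ∈ s, 0 < f x) :
    ∃ c > 0, ∀ x ∈ s, c ≤ f x := by
  classical
  by_cases hs : s.Nonempty
  · obtain ⟨y, hy, hmin⟩ := Finset.exists_min_image s f hs
    exact ⟨f y, h y hy, hmin⟩
  · rw [Finset.not_nonempty_iff_eq_empty] at hs
    subst hs
    exact ⟨1, one_pos, by simp⟩

theorem mem_of_comb3 {X : Set Pt} (hX : Convex ℝ X) {p₁ p₂ p₃ q : Pt} (h₁ : p₁ ∈ X)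
    (h₂ : p₂ ∈ X) (h₃ : p₃ ∈ X) {a b c : ℝ} (ha : 0 ≤ a) (hb : 0 ≤ b) (hc : 0 ≤ c)
    (habc : a + b + c = 1) (hq1 : q.1 = a * p₁.1 + b * p₂.1 + c * p₃.1)
    (hq2 : q.2 = a * p₁.2 + b * p₂.2 + c * p₃.2) : q ∈ X := by
  have hq : q = a • p₁ + b • p₂ + c • p₃ := by
    ext
    · simpa using hq1
    · simpa using hq2
  have := hX.sum_mem (t := (Finset.univ : Finset (Fin 3))) (w := ![a, b, c])
      (z := ![p₁, p₂, p₃]) ?_ ?_ ?_
  · rw [hq]
    simpa [Fin.sum_univ_three] using this
  · intro i _; fin_cases i <;> simp [ha, hb, hc]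
  · simp [Fin.sum_univ_three, habc]
  · intro i _; fin_cases i <;> simp [h₁, h₂, h₃]

theorem mem_of_comb2 {X : Set Pt} (hX : Convex ℝ X) {p₁ p₂ q : Pt} (h₁ : p₁ ∈ X)
    (h₂ : p₂ ∈ X) {a b : ℝ} (ha : 0 ≤ a) (hb : 0 ≤ b)
    (hab : a + b = 1) (hq1 : q.1 = a * p₁.1 + b * p₂.1)
    (hq2 : q.2 = a * p₁.2 + b * p₂.2) : q ∈ X :=
  mem_of_comb3 hX h₁ h₂ h₂ ha hb le_rfl (by linarith) (by linarith) (by linarith)

/-- constants for the early points `E` around `v` -/
theorem exists_consts (E : Finset Pt) (v : Pt) (r : ℝ) (hv : v ∉ E) (hg : GenPos (insert v E))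
    (hr : 0 < r) : ∃ R κ x₀ r₁ : ℝ, 1 ≤ R ∧ 0 < κ ∧ 0 < x₀ ∧ 0 < r₁ ∧ r₁ ≤ r ∧
      (∀ u ∈ E, dist u v ≤ R) ∧ (∀ u ∈ E, r₁ ≤ dist u v) ∧
      (∀ u ∈ E, u.1 ≠ v.1 → x₀ ≤ |u.1 - v.1|) ∧
      (∀ u ∈ E, ∀ w ∈ E, u ≠ w → κ ≤ |det3 v u w|) := by
  classical
  have hne : ∀ u ∈ E, u ≠ v := by rintro u hu rfl; exact hv hu
  obtain ⟨κ, hκ, hκ2⟩ := exists_pos_le ((E ×ˢ E).filter (fun q => q.1 ≠ q.2))
    (fun q => |det3 v q.1 q.2|) (by
      intro q hq
      rw [Finset.mem_filter, Finset.mem_product] at hq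
      apply abs_pos.2
      exact hg.det3_ne (Finset.mem_insert_self _ _) (Finset.mem_insert_of_mem hq.1.1)
        (Finset.mem_insert_of_mem hq.1.2) (hne _ hq.1.1).symm (hne _ hq.1.2).symm hq.2)
  obtain ⟨x₀, hx₀, hx₀2⟩ := exists_pos_le (E.filter (fun u => u.1 ≠ v.1))
    (fun u => |u.1 - v.1|) (by
      intro u hu
      rw [Finset.mem_filter] at hu
      exact abs_pos.2 (sub_ne_zero.2 hu.2))
  obtain ⟨r₁, hr₁, hr₁2⟩ := exists_pos_le E (fun u => dist u v)
    (fun u hu => dist_pos.2 (hne u hu))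
  refine ⟨max 1 (∑ u ∈ E, dist u v), κ, x₀, min r r₁, le_max_left _ _, hκ, hx₀,
    lt_min hr hr₁, min_le_left _ _, ?_, ?_, ?_, ?_⟩
  · intro u hu
    exact le_trans (Finset.single_le_sum (f := fun u => dist u v) (fun u _ => dist_nonneg) hu)
      (le_max_right _ _)
  · intro u hu; exact le_trans (min_le_right _ _) (hr₁2 u hu)
  · intro u hu hne'; exact hx₀2 u (Finset.mem_filter.2 ⟨hu, hne'⟩)
  · intro u hu w hw huw
    exact hκ2 (u, w) (Finset.mem_filter.2 ⟨Finset.mem_product.2 ⟨hu, hw⟩, huw⟩)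

theorem abs_fst_le_dist (u v : Pt) : |u.1 - v.1| ≤ dist u v := by
  rw [Prod.dist_eq, ← Real.dist_eq]; exact le_max_left _ _

theorem abs_snd_le_dist (u v : Pt) : |u.2 - v.2| ≤ dist u v := by
  rw [Prod.dist_eq, ← Real.dist_eq]; exact le_max_right _ _

theorem dist_le_of_abs {u v : Pt} {c : ℝ} (h1 : |u.1 - v.1| ≤ c) (h2 : |u.2 - v.2| ≤ c) :
    dist u v ≤ c := by
  rw [Prod.dist_eq, Real.dist_eq, Real.dist_eq]; exact max_le h1 h2

/-- One of two independent early points is far from being parallel to `p`. -/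
theorem exists_good {E : Finset Pt} {v : Pt} {R κ : ℝ} (hR : 1 ≤ R) (hκ : 0 < κ)
    (hER : ∀ u ∈ E, dist u v ≤ R) (hEκ : ∀ u ∈ E, ∀ w ∈ E, u ≠ w → κ ≤ |det3 v u w|)
    {u w p : Pt} (hu : u ∈ E) (hw : w ∈ E) (huw : u ≠ w) :
    (κ / (2 * R) * dist p v ≤ |det3 v u p|) ∨ (κ / (2 * R) * dist p v ≤ |det3 v w p|) := by
  by_cases hpE : p ∈ E
  · have hb : κ / (2 * R) * dist p v ≤ κ := by
      have h1 := hER p hpE
      have : κ / (2 * R) * dist p v ≤ κ / (2 * R) * R :=
        mul_le_mul_of_nonneg_left h1 (by positivity)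
      have h2 : κ / (2 * R) * R = κ / 2 := by field_simp
      linarith
    by_cases hup : u = p
    · right
      subst hup
      exact hb.trans (hEκ w hw u hpE (Ne.symm huw))
    · left
      exact hb.trans (hEκ u hu p hpE hup)
  · by_contra hcon
    push Not at hcon
    obtain ⟨h1, h2⟩ := hcon
    have hk := hEκ u hu w hw huw
    have e1 : det3 v u w * (p.1 - v.1) = det3 v u p * (w.1 - v.1) - det3 v w p * (u.1 - v.1) := by
      unfold det3; ring
    have e2 : det3 v u w * (p.2 - v.2) = det3 v u p * (w.2 - v.2) - det3 v w p * (u.2 - v.2) := by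
      unfold det3; ring
    have hRu := hER u hu
    have hRw := hER w hw
    have hpos : 0 < dist p v := by
      by_contra hd
      have : dist p v = 0 := le_antisymm (not_lt.1 hd) dist_nonneg
      rw [this, mul_zero] at h1
      exact absurd h1 (not_lt.2 (abs_nonneg _))
    have hb1 : κ * |p.1 - v.1| < κ * dist p v := by
      calc κ * |p.1 - v.1| ≤ |det3 v u w| * |p.1 - v.1| :=
            mul_le_mul_of_nonneg_right hk (abs_nonneg _)
        _ = |det3 v u p * (w.1 - v.1) - det3 v w p * (u.1 - v.1)| := by rw [← abs_mul, e1]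
        _ ≤ |det3 v u p| * |w.1 - v.1| + |det3 v w p| * |u.1 - v.1| := by
            rw [← abs_mul, ← abs_mul]; exact abs_sub _ _
        _ ≤ |det3 v u p| * R + |det3 v w p| * R := by
            gcongr
            · exact (abs_fst_le_dist w v).trans hRw
            · exact (abs_fst_le_dist u v).trans hRu
        _ < κ / (2 * R) * dist p v * R + κ / (2 * R) * dist p v * R := by
            have : 0 < R := by linarith
            gcongr
        _ = κ * dist p v := by field_simp; ring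
    have hb2 : κ * |p.2 - v.2| < κ * dist p v := by
      calc κ * |p.2 - v.2| ≤ |det3 v u w| * |p.2 - v.2| :=
            mul_le_mul_of_nonneg_right hk (abs_nonneg _)
        _ = |det3 v u p * (w.2 - v.2) - det3 v w p * (u.2 - v.2)| := by rw [← abs_mul, e2]
        _ ≤ |det3 v u p| * |w.2 - v.2| + |det3 v w p| * |u.2 - v.2| := by
            rw [← abs_mul, ← abs_mul]; exact abs_sub _ _
        _ ≤ |det3 v u p| * R + |det3 v w p| * R := by
            gcongr
            · exact (abs_snd_le_dist w v).trans hRw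
            · exact (abs_snd_le_dist u v).trans hRu
        _ < κ / (2 * R) * dist p v * R + κ / (2 * R) * dist p v * R := by
            have : 0 < R := by linarith
            gcongr
        _ = κ * dist p v := by field_simp; ring
    have c1 := lt_of_mul_lt_mul_left hb1 hκ.le
    have c2 := lt_of_mul_lt_mul_left hb2 hκ.le
    have hdd : dist p v = max |p.1 - v.1| |p.2 - v.2| := by
      rw [Prod.dist_eq, Real.dist_eq, Real.dist_eq]
    rw [hdd] at c1 c2
    rcases max_choice |p.1 - v.1| |p.2 - v.2| with h | h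
    · rw [h] at c1; exact lt_irrefl _ c1
    · rw [h] at c2; exact lt_irrefl _ c2

/-- the wedge of the ring points of type `(εx, εy)` -/
def wedge (v : Pt) (ω ρ εx εy : ℝ) : Set Pt :=
  {q | 0 < εx * (q.1 - v.1) ∧ εx * (q.1 - v.1) < ω * (εy * (q.2 - v.2)) ∧
    εy * (q.2 - v.2) < ρ}

theorem wedge_isOpen (v : Pt) (ω ρ εx εy : ℝ) : IsOpen (wedge v ω ρ εx εy) := by
  have h1 : Continuous (fun q : Pt => εx * (q.1 - v.1)) := by fun_prop
  have h2 : Continuous (fun q : Pt => εy * (q.2 - v.2)) := by fun_prop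
  exact (isOpen_lt continuous_const h1).inter
    ((isOpen_lt h1 (continuous_const.mul h2)).inter (isOpen_lt h2 continuous_const))

theorem wedge_nonempty (v : Pt) {ω ρ εx εy : ℝ} (hω : 0 < ω) (hρ : 0 < ρ)
    (hx : εx = 1 ∨ εx = -1) (hy : εy = 1 ∨ εy = -1) : (wedge v ω ρ εx εy).Nonempty := by
  refine ⟨(v.1 + εx * (ω * ρ / 4), v.2 + εy * (ρ / 2)), ?_, ?_, ?_⟩
  · have : εx * (v.1 + εx * (ω * ρ / 4) - v.1) = ω * ρ / 4 := by
      rcases hx with rfl | rfl <;> ring
    simp only
    rw [this]; positivity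
  · have h1 : εx * (v.1 + εx * (ω * ρ / 4) - v.1) = ω * ρ / 4 := by
      rcases hx with rfl | rfl <;> ring
    have h2 : εy * (v.2 + εy * (ρ / 2) - v.2) = ρ / 2 := by
      rcases hy with rfl | rfl <;> ring
    simp only
    rw [h1, h2]
    nlinarith [mul_pos hω hρ]
  · have h2 : εy * (v.2 + εy * (ρ / 2) - v.2) = ρ / 2 := by
      rcases hy with rfl | rfl <;> ring
    simp only
    rw [h2]; linarith

/-- A ring point is in a convex set that contains `v`, a point vertically above/below `v` and a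
point at the side. -/
theorem wedge_mem {X : Set Pt} (hX : Convex ℝ X) {v b c q : Pt} {ω ρ εx εy R x₀ h₁ : ℝ}
    (hx : εx = 1 ∨ εx = -1) (hy : εy = 1 ∨ εy = -1) (hω : 0 < ω) (hρ : 0 < ρ)
    (hx₀ : 0 < x₀) (hh₁ : 0 < h₁) (hωR : ω * R ≤ x₀ / 2) (hρ1 : 2 * ρ ≤ h₁ / 2)
    (hρ2 : ω * ρ ≤ x₀ / 4) (hv : v ∈ X) (hb : b ∈ X) (hc : c ∈ X)
    (hbx : x₀ ≤ εx * (b.1 - v.1)) (hby : |b.2 - v.2| ≤ R) (hc1 : c.1 = v.1)
    (hc2 : h₁ ≤ εy * (c.2 - v.2)) (hq : q ∈ wedge v ω ρ εx εy) : q ∈ X := by
  obtain ⟨q1, q2, q3⟩ := hq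
  have hxx : εx * εx = 1 := by rcases hx with rfl | rfl <;> norm_num
  have hyy : εy * εy = 1 := by rcases hy with rfl | rfl <;> norm_num
  set x := εx * (q.1 - v.1) with hxdef
  set y := εy * (q.2 - v.2) with hydef
  set B := εx * (b.1 - v.1) with hB
  set h := εy * (c.2 - v.2) with hh
  set b2 := εy * (b.2 - v.2) with hb2
  have hb2R : |b2| ≤ R := by
    rw [hb2, abs_mul]
    have : |εy| = 1 := by rcases hy with rfl | rfl <;> simp
    rw [this, one_mul]; exact hby
  have hBpos : 0 < B := lt_of_lt_of_le hx₀ hbx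
  have hhpos : 0 < h := lt_of_lt_of_le hh₁ hc2
  have hypos : 0 < y := by
    by_contra hcon
    push Not at hcon
    nlinarith
  have hβ0 : 0 ≤ x / B := (div_pos q1 hBpos).le
  have hβ1 : x / B ≤ ω * y / x₀ := by
    rw [div_le_div_iff₀ hBpos hx₀]
    nlinarith
  have hβb : |x / B * b2| ≤ y / 2 := by
    rw [abs_mul, abs_of_nonneg hβ0]
    calc x / B * |b2| ≤ ω * y / x₀ * R := by gcongr
      _ = (ω * R) * y / x₀ := by ring
      _ ≤ (x₀ / 2) * y / x₀ := by gcongr
      _ = y / 2 := by field_simp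
  have hβb' := abs_le.1 hβb
  have hα0 : 0 ≤ (y - x / B * b2) / h := by
    apply div_nonneg _ hhpos.le
    linarith [hβb'.2]
  have hα1 : (y - x / B * b2) / h ≤ 1 / 2 := by
    rw [div_le_iff₀ hhpos]
    linarith [hβb'.1]
  have hβ2 : x / B ≤ 1 / 2 := by
    refine hβ1.trans ?_
    rw [div_le_iff₀ hx₀]
    nlinarith
  refine mem_of_comb3 hX hv hc hb (a := 1 - (y - x / B * b2) / h - x / B)
    (b := (y - x / B * b2) / h) (c := x / B) (by linarith) hα0 hβ0 (by ring) ?_ ?_
  · have e1 : q.1 - v.1 = εx * x := by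
      rw [hxdef, ← mul_assoc, hxx, one_mul]
    have e2 : b.1 - v.1 = εx * B := by
      rw [hB, ← mul_assoc, hxx, one_mul]
    have e3 : x / B * (b.1 - v.1) = q.1 - v.1 := by
      rw [e1, e2]; field_simp
    rw [hc1]
    linear_combination -e3
  · have e1 : q.2 - v.2 = εy * y := by
      rw [hydef, ← mul_assoc, hyy, one_mul]
    have e2 : b.2 - v.2 = εy * b2 := by
      rw [hb2, ← mul_assoc, hyy, one_mul]
    have e3 : c.2 - v.2 = εy * h := by
      rw [hh, ← mul_assoc, hyy, one_mul]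
    have e4 : (y - x / B * b2) / h * (c.2 - v.2) + x / B * (b.2 - v.2) = q.2 - v.2 := by
      rw [e1, e2, e3]; field_simp; ring
    linear_combination -e4

/-- The vertical ring system. -/
def vertφ : Fin 2 → Pt → ℝ := ![fun p => p.1, fun p => -p.1]

theorem vert_ringSystem : RingSystem 2 4 vertφ := by
  intro E v r hv hg hr
  obtain ⟨R, κ, x₀, r₁, hR, hκ, hx₀, hr₁, hr₁r, hER, hEr, hEx, hEκ⟩ :=
    exists_consts E v r hv hg hr
  set h₁ : ℝ := κ / (2 * R) * r₁ / (R + r₁) with hh₁
  have hh₁pos : 0 < h₁ := by positivity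
  set ω : ℝ := x₀ / (2 * R) with hω
  have hωpos : 0 < ω := by positivity
  set ρ : ℝ := min (h₁ / 4) (x₀ / (4 * ω)) with hρ
  have hρpos : 0 < ρ := by
    apply lt_min <;> positivity
  have hωR : ω * R ≤ x₀ / 2 := by
    rw [hω]; apply le_of_eq; field_simp
  have hρ1 : 2 * ρ ≤ h₁ / 2 := by
    have := min_le_left (h₁ / 4) (x₀ / (4 * ω))
    rw [← hρ] at this; linarith
  have hρ2 : ω * ρ ≤ x₀ / 4 := by
    have := min_le_right (h₁ / 4) (x₀ / (4 * ω))
    rw [← hρ] at this
    calc ω * ρ ≤ ω * (x₀ / (4 * ω)) := by gcongr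
      _ = x₀ / 4 := by field_simp
  refine ⟨![wedge v ω ρ 1 1, wedge v ω ρ 1 (-1), wedge v ω ρ (-1) 1, wedge v ω ρ (-1) (-1)],
    ?_, ?_⟩
  · intro i
    fin_cases i
    · exact ⟨wedge_isOpen _ _ _ _ _, wedge_nonempty v hωpos hρpos (Or.inl rfl) (Or.inl rfl)⟩
    · exact ⟨wedge_isOpen _ _ _ _ _, wedge_nonempty v hωpos hρpos (Or.inl rfl) (Or.inr rfl)⟩
    · exact ⟨wedge_isOpen _ _ _ _ _, wedge_nonempty v hωpos hρpos (Or.inr rfl) (Or.inl rfl)⟩
    · exact ⟨wedge_isOpen _ _ _ _ _, wedge_nonempty v hωpos hρpos (Or.inr rfl) (Or.inr rfl)⟩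
  · intro q hq X hX hvX u hu huX w hw hwX huw hqX
    have hqq : ∀ εx εy : ℝ, (εx = 1 ∨ εx = -1) → (εy = 1 ∨ εy = -1) →
        ∃ q' ∈ wedge v ω ρ εx εy, q' ∉ X := by
      intro εx εy hx hy
      rcases hx with rfl | rfl
      · rcases hy with rfl | rfl
        · exact ⟨q 0, by simpa using hq 0, hqX 0⟩
        · exact ⟨q 1, by simpa using hq 1, hqX 1⟩
      · rcases hy with rfl | rfl
        · exact ⟨q 2, by simpa using hq 2, hqX 2⟩
        · exact ⟨q 3, by simpa using hq 3, hqX 3⟩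
    -- the main contradiction
    have main : ∀ εx : ℝ, (εx = 1 ∨ εx = -1) → ∀ a ∈ E, a ∈ X → 0 ≤ εx * (a.1 - v.1) →
        ∀ b ∈ E, b ∈ X → 0 < εx * (b.1 - v.1) → ∀ p ∈ X, r₁ ≤ dist p v →
        κ / (2 * R) * dist p v ≤ |det3 v a p| → εx * (p.1 - v.1) ≤ 0 → False := by
      intro εx hx a haE haX ha b hbE hbX hb p hpX hpr hpd hp
      have hxx : εx * εx = 1 := by rcases hx with rfl | rfl <;> norm_num
      have hdp : 0 < dist p v := lt_of_lt_of_le hr₁ hpr
      have hdet0 : 0 < |det3 v a p| := lt_of_lt_of_le (by positivity) hpd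
      set D := εx * (a.1 - v.1) - εx * (p.1 - v.1) with hD
      have hD0 : 0 ≤ D := by linarith
      have hDpos : 0 < D := by
        rcases lt_or_eq_of_le hD0 with h | h
        · exact h
        · exfalso
          have h1 : εx * (a.1 - v.1) = 0 := by linarith
          have h2 : εx * (p.1 - v.1) = 0 := by linarith
          have h3 : a.1 - v.1 = 0 := by
            have : εx * (εx * (a.1 - v.1)) = 0 := by rw [h1, mul_zero]
            rwa [← mul_assoc, hxx, one_mul] at this
          have h4 : p.1 - v.1 = 0 := by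
            have : εx * (εx * (p.1 - v.1)) = 0 := by rw [h2, mul_zero]
            rwa [← mul_assoc, hxx, one_mul] at this
          have : det3 v a p = 0 := by unfold det3; rw [h3, h4]; ring
          rw [this, abs_zero] at hdet0
          exact lt_irrefl _ hdet0
      set h := εx * det3 v a p / D with hh
      have habsh : h₁ ≤ |h| := by
        rw [hh, abs_div, abs_mul, abs_of_pos hDpos]
        have : |εx| = 1 := by rcases hx with rfl | rfl <;> simp
        rw [this, one_mul, hh₁, div_le_div_iff₀ (by positivity) hDpos]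
        have hDle : D ≤ R + dist p v := by
          have h1 : εx * (a.1 - v.1) ≤ R := by
            calc εx * (a.1 - v.1) ≤ |εx * (a.1 - v.1)| := le_abs_self _
              _ = |a.1 - v.1| := by rw [abs_mul, this, one_mul]
              _ ≤ dist a v := abs_fst_le_dist a v
              _ ≤ R := hER a haE
          have h2 : -(εx * (p.1 - v.1)) ≤ dist p v := by
            calc -(εx * (p.1 - v.1)) ≤ |εx * (p.1 - v.1)| := neg_le_abs _
              _ = |p.1 - v.1| := by rw [abs_mul, this, one_mul]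
              _ ≤ dist p v := abs_fst_le_dist p v
          linarith
        have hk : 0 < κ / (2 * R) := by positivity
        calc κ / (2 * R) * r₁ * D ≤ κ / (2 * R) * r₁ * (R + dist p v) := by gcongr
          _ ≤ κ / (2 * R) * dist p v * (R + r₁) := by
              have : r₁ * (R + dist p v) ≤ dist p v * (R + r₁) := by nlinarith
              calc κ / (2 * R) * r₁ * (R + dist p v) = κ / (2 * R) * (r₁ * (R + dist p v)) := by
                    ring
                _ ≤ κ / (2 * R) * (dist p v * (R + r₁)) := by gcongr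
                _ = κ / (2 * R) * dist p v * (R + r₁) := by ring
          _ ≤ |det3 v a p| * (R + r₁) := by gcongr
      have hcX : ((v.1, v.2 + h) : Pt) ∈ X := by
        have hl0 : 0 ≤ -(εx * (p.1 - v.1)) / D := div_nonneg (by linarith) hDpos.le
        have hl1 : 0 ≤ εx * (a.1 - v.1) / D := div_nonneg ha hDpos.le
        refine mem_of_comb2 hX haX hpX hl0 hl1 ?_ ?_ ?_
        · rw [← add_div]
          rw [div_eq_one_iff_eq hDpos.ne']
          rw [hD]; ring
        · simp only
          field_simp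
          rw [hD]
          ring
        · simp only
          rw [hh]
          field_simp
          rw [hD]
          unfold det3
          ring
      have hbx : x₀ ≤ εx * (b.1 - v.1) := by
        have hne : b.1 ≠ v.1 := by
          intro h0; rw [h0, sub_self, mul_zero] at hb; exact lt_irrefl _ hb
        have h1 := hEx b hbE hne
        have : |b.1 - v.1| = εx * (b.1 - v.1) := by
          rw [← abs_of_pos hb, abs_mul]
          have : |εx| = 1 := by rcases hx with rfl | rfl <;> simp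
          rw [this, one_mul]
        rwa [this] at h1
      have hby : |b.2 - v.2| ≤ R := (abs_snd_le_dist b v).trans (hER b hbE)
      obtain ⟨εy, hy, hhy⟩ : ∃ εy : ℝ, (εy = 1 ∨ εy = -1) ∧ h₁ ≤ εy * h := by
        rcases le_or_gt 0 h with h0 | h0
        · exact ⟨1, Or.inl rfl, by rw [abs_of_nonneg h0] at habsh; linarith⟩
        · exact ⟨-1, Or.inr rfl, by rw [abs_of_neg h0] at habsh; linarith⟩
      obtain ⟨q', hq', hq'X⟩ := hqq εx εy hx hy
      apply hq'X
      refine wedge_mem hX hx hy hωpos hρpos hx₀ hh₁pos hωR hρ1 hρ2 hvX hbX hcX hbx hby rfl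
        ?_ hq'
      simp only [add_sub_cancel_left]
      exact hhy
    have hfar : ∀ p ∈ X, (p ∈ E ∨ r < dist p v) → r₁ ≤ dist p v := by
      intro p _ hp
      rcases hp with hp | hp
      · exact hEr p hp
      · linarith
    -- choose the side
    have side : ∀ εx : ℝ, (εx = 1 ∨ εx = -1) → ∀ b ∈ E, b ∈ X → 0 < εx * (b.1 - v.1) →
        ∀ c ∈ E, c ∈ X → b ≠ c →
        ∀ p ∈ X, p ≠ v → (p ∈ E ∨ r < dist p v) → 0 < εx * (p.1 - v.1) := by
      intro εx hx b hbE hbX hb c hcE hcX hbc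
      have hc : 0 ≤ εx * (c.1 - v.1) := by
        by_contra hcon
        push Not at hcon
        refine main εx hx b hbE hbX hb.le b hbE hbX hb c hcX (hEr c hcE) ?_ hcon.le
        refine le_trans ?_ (hEκ b hbE c hcE hbc)
        have h1 := hER c hcE
        calc κ / (2 * R) * dist c v ≤ κ / (2 * R) * R := by gcongr
          _ = κ / 2 := by field_simp
          _ ≤ κ := by linarith
      intro p hpX hpv hp
      by_contra hcon
      push Not at hcon
      rcases exists_good hR hκ hER hEκ (p := p) hbE hcE hbc with h | h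
      · exact main εx hx b hbE hbX hb.le b hbE hbX hb p hpX (hfar p hpX hp) h hcon
      · exact main εx hx c hcE hcX hc b hbE hbX hb p hpX (hfar p hpX hp) h hcon
    have hsome : u.1 ≠ v.1 ∨ w.1 ≠ v.1 := by
      by_contra hcon
      push Not at hcon
      have h1 := hEκ u hu w hw huw
      have : det3 v u w = 0 := by unfold det3; rw [hcon.1, hcon.2]; ring
      rw [this, abs_zero] at h1
      linarith
    have fin : ∀ b ∈ E, b ∈ X → b.1 ≠ v.1 → ∀ c ∈ E, c ∈ X → b ≠ c →
        ∃ j, ∀ p ∈ X, p ≠ v → (p ∈ E ∨ r < dist p v) → vertφ j v < vertφ j p := by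
      intro b hbE hbX hb c hcE hcX hbc
      rcases lt_or_gt_of_ne hb with h | h
      · refine ⟨1, fun p hpX hpv hp => ?_⟩
        have := side (-1) (Or.inr rfl) b hbE hbX (by linarith) c hcE hcX hbc p hpX hpv hp
        simp only [vertφ, Matrix.cons_val_one, Matrix.cons_val_zero]
        linarith
      · refine ⟨0, fun p hpX hpv hp => ?_⟩
        have := side 1 (Or.inl rfl) b hbE hbX (by linarith) c hcE hcX hbc p hpX hpv hp
        simp only [vertφ, Matrix.cons_val_zero]
        linarith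
    rcases hsome with h | h
    · exact fin u hu huX h w hw hwX huw
    · exact fin w hw hwX h u hu huX huw.symm

/-- Breaker wins the `k`-hole game for `k ≥ 6` with 6 points per round. -/
theorem breakerWins_six {k : ℕ} (hk : 6 ≤ k) {c : ℕ → ℕ} (hc : ∀ n, c n = 6) :
    BreakerWins k c :=
  breakerWins_of_ring vert_ringSystem (by omega) (by simpa using hc)

end KHole
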