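import Pool.Agent.Helper89.Hole.Vert
import Pool.Agent.Helper89.Hole.Ext
import Pool.Agent.Helper41.Hole.GenPar
import Pool.Agent.Helper85.Hole.Cand
import Pool.Agent.Helper54.Hole.Phase1
import Pool.Agent.Helper28.Hole.Phase2
import Pool.Agent.Helper83.Hole.Phase3

/-!
Maker's win in the bichromatic `k`-hole game for `k ≤ 5` against every bounded schedule, and the
values of the speeds.
-/

namespace KHole

theorem makerForces_of_phase3 {c : ℕ → ℕ} (n : ℕ) (M B : Finset Pt) (h : Phase3 n M B) :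
    MakerForces 5 c n M B := by
  obtain ⟨⟨hdis, hgen⟩, H, hHM, hH⟩ := h
  obtain ⟨m, hm, hgen', hH'⟩ := exists_ext (by norm_num) (M ∪ B) H hgen hH
  refine MakerForces.win n M B m ⟨hm, hgen'⟩ ⟨insert m H, Finset.insert_subset_insert _ hHM, ?_⟩
  rw [Finset.insert_union]
  exact hH'

/-- Maker wins the `5`-hole game against every bounded schedule of Breaker. -/
theorem makerWins_five (c : ℕ → ℕ) (s : ℕ) (hc : ∀ n, c n ≤ s) : MakerWins 5 c := by
  set s' := s + 1 with hs'
  have hs : 1 ≤ s' := by omega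
  have hc' : ∀ n, c n ≤ s' := fun n => (hc n).trans (by omega)
  set K := 2 * (s' + 1) * ((s' + 1) * s' + (s' + 1)) with hK
  obtain ⟨r, hr⟩ := exists_cand s' K hs
  obtain ⟨p, hp⟩ := exists_generic (s' + 1) r (by omega)
  have h1 : Reach c (Phase1 p (((s' + 1) * s' + (s' + 1)) * 2 ^ (r * (s' + 1)))) 0 ∅ ∅ :=
    reach_phase1 hs p hp c hc' K (hr p hp) _ (le_of_eq (by rw [hK]; ring))
  have h2 : Reach c (Phase2 (s' + 1)) 0 ∅ ∅ :=
    h1.trans (fun n M B h => reach_phase2 hs p hp c hc' _ le_rfl n M B h)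
  have h3 : Reach c Phase3 0 ∅ ∅ :=
    h2.trans (fun n M B h => reach_phase3 c hc' n M B h)
  exact h3.win makerForces_of_phase3

/-- Maker wins the `k`-hole game, `k ≤ 5`, against every bounded schedule of Breaker. -/
theorem makerWins_of_bounded {k : ℕ} (hk : k ≤ 5) (c : ℕ → ℕ) (s : ℕ) (hc : ∀ n, c n ≤ s) :
    MakerWins k c :=
  (makerWins_five c s hc).mono hk

theorem sched_le (a b n : ℕ) : sched a b n ≤ a / b + 1 := by
  unfold sched; split_ifs <;> omega

theorem sched_one (a n : ℕ) : sched a 1 n = a := by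
  unfold sched; simp [Nat.mod_one]

theorem speed_eq_top {k : ℕ} (hk : k ≤ 5) : speed k = ⊤ := by
  unfold speed
  rw [sInf_eq_top]
  rintro x ⟨a, b, _, _, _, hB⟩
  exact absurd hB (not_breakerWins_of_makerWins
    (makerWins_of_bounded hk _ (a / b + 1) (sched_le a b)))

theorem speed_six {k : ℕ} (hk : 6 ≤ k) : speed k ≤ 6 :=
  sInf_le ⟨6, 1, by norm_num, by norm_num, by norm_num, breakerWins_six hk (sched_one 6)⟩

end KHole
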